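import Mathlib
import Pool.Agent.N989.MK.Strong

/-!
# Tangents of the renormalisation map: definitions and interface
-/

open MeasureTheory Pool.Agent.N991.MK Pool.Agent.N989.MK Filter
open scoped Topology

namespace Pool.Agent.N681.MK

set_option linter.unusedSectionVars false

noncomputable section

variable {G : Type*} [Group G] [TopologicalSpace G] [IsTopologicalGroup G] [CompactSpace G]
  [MeasurableSpace G] [BorelSpace G] [SecondCountableTopology G]
  (μ : Measure G) [IsProbabilityMeasure μ] [μ.IsHaarMeasure] [μ.IsMulRightInvariant]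
  [μ.IsInvInvariant]

/-- the derivative of the convolution square of `f` in the direction `g` -/
def dcv (f g : G → ℝ) : G → ℝ := fun x => conv μ f g x + conv μ g f x

/-- the derivative of the fourfold convolution of `f` in the direction `g` -/
def dH4 (f g : G → ℝ) : G → ℝ := dcv μ (conv μ f f) (dcv μ f g)

/-- the derivative of the renormalisation map at `f` in the direction `g` -/
def dTT (f g : G → ℝ) : G → ℝ := fun x => 4 * H4 μ f x ^ 3 * dH4 μ f g x

/-- the derivative of the iterations -/
def dTn (f g : G → ℝ) : ℕ → G → ℝ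
  | 0 => g
  | k + 1 => dTT μ (TTn μ f k) (dTn f g k)

/-- the field of the tangent `g` at `f`, normalised to vanish at the identity -/
def fld {G : Type*} [Group G] (f g : G → ℝ) : G → ℝ := fun x => g x / f x - g 1 / f 1

/-- **The interface**: `T f g h a l` says that `g` is a tangent vector at the state `f` of the
coupling `h`, with the coefficient `a` and the error `l`: near the identity
`g / f = const - (a / 2) * q + O (l * q ^ 2)`. -/
structure TanFlow (P : (G → ℝ) → ℝ → ℝ → Prop) (T : (G → ℝ) → (G → ℝ) → ℝ → ℝ → ℝ → Prop)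
    (o : G → ℝ) (κ h1 C' : ℝ) (Dm : ℕ) : Prop where
  C_nn : 0 ≤ C'
  nn : ∀ f g h a l, T f g h a l → 0 ≤ l
  sub : ∀ f g g' h a a' l l', T f g h a l → T f g' h a' l' →
    T f (fun x => g x - g' x) h (a - a') (l + l')
  init : ∀ f h ρ, P f h ρ → h1 ≤ h → T f (fun x => o x * f x) h κ C'
  step : ∀ f g h ρ h' ρ' a l, P f h ρ → P (TT μ f) h' ρ' → T f g h a l → h1 ≤ h → h1 ≤ h' →
    ∃ a' l', T (TT μ f) (dTT μ f g) h' a' l' ∧ l' ≤ l / 4 + C' * |a| / h ∧
      |a' - a| ≤ C' * (l / h + (|a| + l) * (ρ + 1 / h) / h)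
  close : ∀ f g h ρ a l, P f h ρ → T f g h a l → h1 ≤ h →
    ∀ x, |g x / f 1 - g 1 * f x / f 1 ^ 2| ≤ C' * h ^ Dm * (|a| + l)

end

end Pool.Agent.N681.MK
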