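import Mathlib
import Pool.Agent.N681.MK.TanDefs
import Pool.Agent.N989.MK.Uniq3

/-!
# Tangents of the renormalisation map: algebra and continuity
-/

open MeasureTheory Pool.Agent.N991.MK Pool.Agent.N989.MK Filter
open scoped Topology

namespace Pool.Agent.N681.MK

set_option linter.unusedSectionVars false

noncomputable section

variable {G : Type*} [Group G] [TopologicalSpace G] [IsTopologicalGroup G] [CompactSpace G]
  [MeasurableSpace G] [BorelSpace G] [SecondCountableTopology G]
  {μ : Measure G} [IsProbabilityMeasure μ] [μ.IsHaarMeasure] [μ.IsMulRightInvariant]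
  [μ.IsInvInvariant]

variable {f g g' : G → ℝ}

/-! ### Algebra -/

lemma conv_sub_right (hf : Continuous f) (hg : Continuous g) (hg' : Continuous g') (x : G) :
    conv μ f (fun y => g y - g' y) x = conv μ f g x - conv μ f g' x := by
  unfold Pool.Agent.N991.MK.conv
  have c1 : Continuous fun y => f y * g (y⁻¹ * x) := by fun_prop
  have c2 : Continuous fun y => f y * g' (y⁻¹ * x) := by fun_prop
  rw [← integral_sub (integrable_of_cont c1) (integrable_of_cont c2)]
  refine integral_congr_ae (Eventually.of_forall fun y => ?_)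
  beta_reduce
  ring

lemma conv_sub_left (hf : Continuous f) (hg : Continuous g) (hg' : Continuous g') (x : G) :
    conv μ (fun y => g y - g' y) f x = conv μ g f x - conv μ g' f x := by
  unfold Pool.Agent.N991.MK.conv
  have c1 : Continuous fun y => g y * f (y⁻¹ * x) := by fun_prop
  have c2 : Continuous fun y => g' y * f (y⁻¹ * x) := by fun_prop
  rw [← integral_sub (integrable_of_cont c1) (integrable_of_cont c2)]
  refine integral_congr_ae (Eventually.of_forall fun y => ?_)
  beta_reduce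
  ring

lemma conv_scale2 (a b : ℝ) (f g : G → ℝ) :
    conv μ (fun x => a * f x) (fun x => b * g x) = fun x => a * b * conv μ f g x := by
  funext x
  unfold Pool.Agent.N991.MK.conv
  rw [← integral_const_mul]
  refine integral_congr_ae (Eventually.of_forall fun y => ?_)
  beta_reduce
  ring

lemma cont_dcv (hf : Continuous f) (hg : Continuous g) : Continuous (dcv μ f g) :=
  (cont_conv hf hg).add (cont_conv hg hf)

lemma dcv_sub (hf : Continuous f) (hg : Continuous g) (hg' : Continuous g') :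
    dcv μ f (fun y => g y - g' y) = fun x => dcv μ f g x - dcv μ f g' x := by
  funext x
  unfold dcv
  rw [conv_sub_right hf hg hg', conv_sub_left hf hg hg']
  ring

lemma dcv_scale (a b : ℝ) (f g : G → ℝ) :
    dcv μ (fun x => a * f x) (fun x => b * g x) = fun x => a * b * dcv μ f g x := by
  funext x
  unfold dcv
  rw [conv_scale2, conv_scale2]
  ring

lemma dcv_self (f : G → ℝ) : dcv μ f f = fun x => 2 * conv μ f f x := by
  funext x
  unfold dcv
  ring

lemma cont_dH4 (hf : Continuous f) (hg : Continuous g) : Continuous (dH4 μ f g) :=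
  cont_dcv (cont_conv hf hf) (cont_dcv hf hg)

lemma dH4_sub (hf : Continuous f) (hg : Continuous g) (hg' : Continuous g') :
    dH4 μ f (fun y => g y - g' y) = fun x => dH4 μ f g x - dH4 μ f g' x := by
  unfold dH4
  rw [dcv_sub hf hg hg', dcv_sub (cont_conv hf hf) (cont_dcv hf hg) (cont_dcv hf hg')]

lemma dH4_scale (a b : ℝ) (f g : G → ℝ) :
    dH4 μ (fun x => a * f x) (fun x => b * g x) = fun x => a ^ 3 * b * dH4 μ f g x := by
  unfold dH4
  rw [dcv_scale, conv_scale, dcv_scale]
  funext x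
  ring

lemma dH4_self (f : G → ℝ) : dH4 μ f f = fun x => 4 * H4 μ f x := by
  unfold dH4
  rw [dcv_self]
  have h := dcv_scale (μ := μ) 1 2 (conv μ f f) (conv μ f f)
  simp only [one_mul] at h
  rw [h, dcv_self]
  funext x
  unfold H4
  ring

lemma cont_H4 (hf : Continuous f) : Continuous (H4 μ f) :=
  cont_conv (cont_conv hf hf) (cont_conv hf hf)

lemma cont_TT (hf : Continuous f) : Continuous (TT μ f) := (cont_H4 hf).pow 4

lemma cont_TTn (hf : Continuous f) : ∀ n, Continuous (TTn μ f n)
  | 0 => hf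
  | n + 1 => cont_TT (cont_TTn hf n)

lemma cont_dTT (hf : Continuous f) (hg : Continuous g) : Continuous (dTT μ f g) :=
  (continuous_const.mul ((cont_H4 hf).pow 3)).mul (cont_dH4 hf hg)

lemma dTT_sub (hf : Continuous f) (hg : Continuous g) (hg' : Continuous g') :
    dTT μ f (fun y => g y - g' y) = fun x => dTT μ f g x - dTT μ f g' x := by
  unfold dTT
  rw [dH4_sub hf hg hg']
  funext x
  ring

lemma H4_scale (a : ℝ) (f : G → ℝ) : H4 μ (fun x => a * f x) = fun x => a ^ 4 * H4 μ f x := by
  unfold H4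
  rw [conv_scale, conv_scale]
  funext x
  ring

lemma dTT_scale (a b : ℝ) (f g : G → ℝ) :
    dTT μ (fun x => a * f x) (fun x => b * g x) = fun x => a ^ 15 * b * dTT μ f g x := by
  unfold dTT
  rw [H4_scale, dH4_scale]
  funext x
  ring

lemma dTT_self (f : G → ℝ) : dTT μ f f = fun x => 16 * TT μ f x := by
  unfold dTT TT
  rw [dH4_self]
  funext x
  ring

lemma cont_dTn (hf : Continuous f) (hg : Continuous g) : ∀ n, Continuous (dTn μ f g n)
  | 0 => hg
  | n + 1 => cont_dTT (cont_TTn hf n) (cont_dTn hf hg n)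

lemma dTn_sub (hf : Continuous f) (hg : Continuous g) (hg' : Continuous g') : ∀ n,
    dTn μ f (fun y => g y - g' y) n = fun x => dTn μ f g n x - dTn μ f g' n x
  | 0 => rfl
  | n + 1 => by
    change dTT μ (TTn μ f n) (dTn μ f (fun y => g y - g' y) n) = fun x =>
      dTT μ (TTn μ f n) (dTn μ f g n) x - dTT μ (TTn μ f n) (dTn μ f g' n) x
    rw [dTn_sub hf hg hg' n, dTT_sub (cont_TTn hf n) (cont_dTn hf hg n) (cont_dTn hf hg' n)]

lemma dTn_add (f g : G → ℝ) (a : ℕ) : ∀ b,
    dTn μ f g (a + b) = dTn μ (TTn μ f a) (dTn μ f g a) b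
  | 0 => rfl
  | b + 1 => by
    change dTT μ (TTn μ f (a + b)) (dTn μ f g (a + b)) =
      dTT μ (TTn μ (TTn μ f a) b) (dTn μ (TTn μ f a) (dTn μ f g a) b)
    rw [dTn_add f g a b, TTn_add]

/-- the scaling of a pair -/
lemma dTn_scale {a : ℝ} (ha : 0 < a) (f g : G → ℝ) : ∀ n, ∃ b : ℝ, 0 < b ∧
    TTn μ (fun x => a * f x) n = (fun x => b * TTn μ f n x) ∧
    dTn μ (fun x => a * f x) (fun x => a * g x) n = fun x => b * dTn μ f g n x
  | 0 => ⟨a, ha, rfl, rfl⟩
  | n + 1 => by
    obtain ⟨b, hb, h1, h2⟩ := dTn_scale ha f g n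
    refine ⟨b ^ 16, by positivity, ?_, ?_⟩
    · change TT μ (TTn μ (fun x => a * f x) n) = _
      rw [h1, TT_scale]
      rfl
    · change dTT μ (TTn μ (fun x => a * f x) n) (dTn μ (fun x => a * f x) (fun x => a * g x) n) = _
      rw [h1, h2, dTT_scale]
      funext x
      change b ^ 15 * b * dTT μ (TTn μ f n) (dTn μ f g n) x =
        b ^ 16 * dTT μ (TTn μ f n) (dTn μ f g n) x
      ring

lemma dTn_self (f : G → ℝ) (s : ℝ) : ∀ n, dTn μ f (fun x => s * f x) n =
    fun x => s * 16 ^ n * TTn μ f n x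
  | 0 => by
    funext x
    change s * f x = s * 16 ^ 0 * f x
    ring
  | n + 1 => by
    change dTT μ (TTn μ f n) (dTn μ f (fun x => s * f x) n) = _
    rw [dTn_self f s n]
    have h := dTT_scale (μ := μ) 1 (s * 16 ^ n) (TTn μ f n) (TTn μ f n)
    simp only [one_mul, one_pow] at h
    rw [h, dTT_self]
    funext x
    change s * 16 ^ n * (16 * TT μ (TTn μ f n) x) = s * 16 ^ (n + 1) * TT μ (TTn μ f n) x
    ring

/-! ### The field -/

omit [TopologicalSpace G] [IsTopologicalGroup G] [CompactSpace G] [MeasurableSpace G]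
  [BorelSpace G] [SecondCountableTopology G] in
lemma fld_scale {b : ℝ} (hb : 0 < b) (f g : G → ℝ) :
    fld (fun x => b * f x) (fun x => b * g x) = fld f g := by
  funext x
  unfold fld
  rw [mul_div_mul_left _ _ hb.ne', mul_div_mul_left _ _ hb.ne']

omit [TopologicalSpace G] [IsTopologicalGroup G] [CompactSpace G] [MeasurableSpace G]
  [BorelSpace G] [SecondCountableTopology G] in
lemma fld_one (f g : G → ℝ) : fld f g 1 = 0 := by
  unfold fld
  ring

omit [TopologicalSpace G] [IsTopologicalGroup G] [CompactSpace G] [MeasurableSpace G]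
  [BorelSpace G] [SecondCountableTopology G] in
lemma fld_shift (hf : ∀ x, 0 < f x) (g : G → ℝ) (s : ℝ) :
    fld f (fun x => g x - s * f x) = fld f g := by
  funext x
  unfold fld
  have h1 := (hf x).ne'
  have h2 := (hf 1).ne'
  field_simp
  ring

omit [TopologicalSpace G] [IsTopologicalGroup G] [CompactSpace G] [MeasurableSpace G]
  [BorelSpace G] [SecondCountableTopology G] in
/-- the numerator is the field times the weight up to a multiple of the weight -/
lemma fld_mul (hf : ∀ x, 0 < f x) (g : G → ℝ) :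
    (fun x => fld f g x * f x) = fun x => g x - g 1 / f 1 * f x := by
  funext x
  unfold fld
  have h1 := (hf x).ne'
  field_simp

/-- the iterated field depends on the field only -/
lemma fld_dTn_fld (hf : Adm f) (hg : Continuous g) (n : ℕ) :
    fld (TTn μ f n) (dTn μ f (fun x => fld f g x * f x) n) =
      fld (TTn μ f n) (dTn μ f g n) := by
  have hc : Continuous fun x => g 1 / f 1 * f x := continuous_const.mul hf.cont
  rw [fld_mul hf.pos, dTn_sub hf.cont hg hc, dTn_self]
  exact fld_shift (hf.TTn n).pos _ _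

/-- the iterated field depends on the ray of the weight only -/
lemma fld_dTn_nrm (hf : Adm f) (φ : G → ℝ) (n : ℕ) :
    fld (TTn μ (nrm μ f) n) (dTn μ (nrm μ f) (fun x => φ x * nrm μ f x) n) =
      fld (TTn μ f n) (dTn μ f (fun x => φ x * f x) n) := by
  obtain ⟨b, hb, h1, h2⟩ := dTn_scale (μ := μ) (inv_pos.2 (hf.ipos (μ := μ))) f
    (fun x => φ x * f x) n
  have e : (fun x => φ x * nrm μ f x) = fun x => (∫ y, f y ∂μ)⁻¹ * (φ x * f x) := by
    funext x
    unfold Pool.Agent.N989.MK.nrm
    ring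
  have e2 : nrm μ f = fun x => (∫ y, f y ∂μ)⁻¹ * f x := rfl
  rw [e, e2, h1, h2, fld_scale hb]

omit [MeasurableSpace G] [BorelSpace G] [SecondCountableTopology G] [Group G]
  [IsTopologicalGroup G] [CompactSpace G] in
lemma cont_fld' [Group G] (hf : Continuous f) (hp : ∀ x, 0 < f x) (hg : Continuous g) :
    Continuous (fld f g) :=
  (hg.div hf fun x => (hp x).ne').sub continuous_const

/-! ### Uniform convergence -/

variable {a b : ℕ → G → ℝ} {A B : G → ℝ}

omit [Group G] [IsTopologicalGroup G] [MeasurableSpace G] [BorelSpace G]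
  [SecondCountableTopology G] [CompactSpace G] [TopologicalSpace G] in
lemma UT.congr (h : UT a A) (hb : ∀ᶠ i in atTop, a i = b i) : UT b A := by
  intro ε hε
  filter_upwards [h ε hε, hb] with i h1 h2 x
  rw [← h2]
  exact h1 x

omit [Group G] [IsTopologicalGroup G] [MeasurableSpace G] [BorelSpace G]
  [SecondCountableTopology G] [CompactSpace G] [TopologicalSpace G] in
lemma UT.const (A : G → ℝ) : UT (fun _ => A) A := by
  intro ε hε
  filter_upwards with i x
  simpa using hε

omit [Group G] [IsTopologicalGroup G] [MeasurableSpace G] [BorelSpace G]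
  [SecondCountableTopology G] [CompactSpace G] [TopologicalSpace G] in
lemma UT.add (ha : UT a A) (hb : UT b B) : UT (fun i x => a i x + b i x) fun x => A x + B x := by
  intro ε hε
  filter_upwards [ha (ε / 2) (half_pos hε), hb (ε / 2) (half_pos hε)] with i h1 h2 x
  have e : a i x + b i x - (A x + B x) = (a i x - A x) + (b i x - B x) := by ring
  rw [e]
  exact (abs_add_le _ _).trans_lt (by linarith [h1 x, h2 x])

omit [Group G] [IsTopologicalGroup G] [MeasurableSpace G] [BorelSpace G]
  [SecondCountableTopology G] [CompactSpace G] [TopologicalSpace G] in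
lemma UT.sub (ha : UT a A) (hb : UT b B) : UT (fun i x => a i x - b i x) fun x => A x - B x := by
  intro ε hε
  filter_upwards [ha (ε / 2) (half_pos hε), hb (ε / 2) (half_pos hε)] with i h1 h2 x
  have e : a i x - b i x - (A x - B x) = (a i x - A x) - (b i x - B x) := by ring
  rw [e]
  exact (abs_sub _ _).trans_lt (by linarith [h1 x, h2 x])

omit [Group G] [IsTopologicalGroup G] [MeasurableSpace G] [BorelSpace G]
  [SecondCountableTopology G] in
lemma UT.mul (hA : Continuous A) (hB : Continuous B) (ha : UT a A) (hb : UT b B) :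
    UT (fun i x => a i x * b i x) fun x => A x * B x := by
  obtain ⟨M, hM1, hM⟩ := exists_bd hA
  obtain ⟨M', hM1', hM'⟩ := exists_bd hB
  intro ε hε
  have hM0 : 0 < M := by linarith
  have hM0' : 0 < M' := by linarith
  filter_upwards [hb 1 one_pos, ha (ε / (2 * M')) (by positivity),
    hb (ε / (2 * M)) (by positivity)] with i h0 h1 h2 x
  have hb' : |b i x| ≤ M' := by
    have := abs_sub_abs_le_abs_sub (b i x) (B x)
    have := hM' x
    have := h0 x
    linarith
  have hA' : |A x| ≤ M := by have := hM x; linarith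
  have e : a i x * b i x - A x * B x = (a i x - A x) * b i x + A x * (b i x - B x) := by ring
  rw [e]
  refine (abs_add_le _ _).trans_lt ?_
  rw [abs_mul, abs_mul]
  have g1 : |a i x - A x| * |b i x| ≤ |a i x - A x| * M' :=
    mul_le_mul_of_nonneg_left hb' (abs_nonneg _)
  have g2 : |A x| * |b i x - B x| ≤ M * |b i x - B x| :=
    mul_le_mul_of_nonneg_right hA' (abs_nonneg _)
  have g3 : |a i x - A x| * M' < ε / (2 * M') * M' := mul_lt_mul_of_pos_right (h1 x) hM0'
  have g4 : M * |b i x - B x| < M * (ε / (2 * M)) := mul_lt_mul_of_pos_left (h2 x) hM0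
  have e1 : ε / (2 * M') * M' = ε / 2 := by field_simp
  have e2 : M * (ε / (2 * M)) = ε / 2 := by field_simp
  linarith

omit [MeasurableSpace G] [BorelSpace G] [SecondCountableTopology G] [IsTopologicalGroup G] in
lemma exists_lb (hA : Continuous A) (hp : ∀ x, 0 < A x) : ∃ δ : ℝ, 0 < δ ∧ ∀ x, δ ≤ A x := by
  obtain ⟨x0, -, hx0⟩ := isCompact_univ.exists_isMinOn ⟨(1 : G), trivial⟩ hA.continuousOn
  exact ⟨A x0, hp x0, fun x => hx0 trivial⟩

omit [MeasurableSpace G] [BorelSpace G] [SecondCountableTopology G] [IsTopologicalGroup G] in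
lemma UT.inv (hA : Continuous A) (hp : ∀ x, 0 < A x) (ha : UT a A) :
    UT (fun i x => (a i x)⁻¹) fun x => (A x)⁻¹ := by
  obtain ⟨δ, hδ, hδA⟩ := exists_lb hA hp
  intro ε hε
  filter_upwards [ha (δ / 2) (half_pos hδ), ha (ε * (δ ^ 2 / 2)) (by positivity)] with i h1 h2 x
  have h3 : δ / 2 ≤ a i x := by
    have := (abs_lt.1 (h1 x)).1
    have := hδA x
    linarith
  have h4 := hδA x
  have h5 : 0 < a i x := by linarith
  have h6 : 0 < A x := hp x
  have e : (a i x)⁻¹ - (A x)⁻¹ = -(a i x - A x) / (a i x * A x) := by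
    field_simp
    ring
  rw [e, abs_div, abs_neg, abs_of_pos (mul_pos h5 h6), div_lt_iff₀ (mul_pos h5 h6)]
  refine (h2 x).trans_le ?_
  have : δ ^ 2 / 2 ≤ a i x * A x := by nlinarith
  exact mul_le_mul_of_nonneg_left this hε.le

omit [Group G] [IsTopologicalGroup G] [MeasurableSpace G] [BorelSpace G]
  [SecondCountableTopology G] [CompactSpace G] [TopologicalSpace G] in
lemma UT.at (ha : UT a A) (x0 : G) : UT (fun i _ => a i x0) fun _ : G => A x0 := by
  intro ε hε
  filter_upwards [ha ε hε] with i h1 x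
  exact h1 x0

lemma UT.conv2 (ha' : ∀ i, Continuous (a i)) (hb' : ∀ i, Continuous (b i)) (hA : Continuous A)
    (hB : Continuous B) (ha : UT a A) (hb : UT b B) :
    UT (fun i => conv μ (a i) (b i)) (conv μ A B) := by
  obtain ⟨M, hM1, hM⟩ := exists_bd hA
  obtain ⟨M', hM1', hM'⟩ := exists_bd hB
  intro ε hε
  have hM0 : 0 < M := by linarith
  have hM0' : 0 < M' := by linarith
  filter_upwards [hb 1 one_pos, ha (ε / (4 * M')) (by positivity),
    hb (ε / (4 * M)) (by positivity)] with i h0 h1 h2 x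
  have hbb : ∀ y, |b i y| ≤ M' := fun y => by
    have := abs_sub_abs_le_abs_sub (b i y) (B y)
    have := hM' y
    have := h0 y
    linarith
  have hA' : ∀ y, |A y| ≤ M := fun y => by have := hM y; linarith
  unfold Pool.Agent.N991.MK.conv
  have c1 : Continuous fun y => a i y * b i (y⁻¹ * x) := by
    have := ha' i
    have := hb' i
    fun_prop
  have c2 : Continuous fun y => A y * B (y⁻¹ * x) := by fun_prop
  rw [← integral_sub (integrable_of_cont c1) (integrable_of_cont c2)]
  have h3 : ∀ y, ‖a i y * b i (y⁻¹ * x) - A y * B (y⁻¹ * x)‖ ≤ ε / 2 := by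
    intro y
    have e : a i y * b i (y⁻¹ * x) - A y * B (y⁻¹ * x) =
        (a i y - A y) * b i (y⁻¹ * x) + A y * (b i (y⁻¹ * x) - B (y⁻¹ * x)) := by ring
    rw [e, Real.norm_eq_abs]
    refine (abs_add_le _ _).trans ?_
    rw [abs_mul, abs_mul]
    have g1 := mul_le_mul (h1 y).le (hbb (y⁻¹ * x)) (abs_nonneg _) (by positivity)
    have g2 := mul_le_mul (hA' y) (h2 (y⁻¹ * x)).le (abs_nonneg _) hM0.le
    have e2 : ε / (4 * M') * M' = ε / 4 := by field_simp
    have e3 : M * (ε / (4 * M)) = ε / 4 := by field_simp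
    rw [e2] at g1
    rw [e3] at g2
    linarith
  have h4 := norm_integral_le_of_norm_le_const (μ := μ) (Eventually.of_forall h3)
  simp only [probReal_univ, mul_one] at h4
  rw [Real.norm_eq_abs] at h4
  linarith

lemma UT.dcv (ha' : ∀ i, Continuous (a i)) (hb' : ∀ i, Continuous (b i)) (hA : Continuous A)
    (hB : Continuous B) (ha : UT a A) (hb : UT b B) :
    UT (fun i => dcv μ (a i) (b i)) (dcv μ A B) :=
  UT.add (UT.conv2 ha' hb' hA hB ha hb) (UT.conv2 hb' ha' hB hA hb ha)

lemma UT.dH4 (ha' : ∀ i, Continuous (a i)) (hb' : ∀ i, Continuous (b i)) (hA : Continuous A)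
    (hB : Continuous B) (ha : UT a A) (hb : UT b B) :
    UT (fun i => dH4 μ (a i) (b i)) (dH4 μ A B) :=
  UT.dcv (μ := μ) (fun i => cont_conv (ha' i) (ha' i)) (fun i => cont_dcv (ha' i) (hb' i))
    (cont_conv hA hA) (cont_dcv hA hB) (UT.conv2 (μ := μ) ha' ha' hA hA ha ha)
    (UT.dcv (μ := μ) ha' hb' hA hB ha hb)

lemma UT.H4 (ha' : ∀ i, Continuous (a i)) (hA : Continuous A) (ha : UT a A) :
    UT (fun i => H4 μ (a i)) (H4 μ A) :=
  UT.conv2 (fun i => cont_conv (ha' i) (ha' i)) (fun i => cont_conv (ha' i) (ha' i))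
    (cont_conv hA hA) (cont_conv hA hA) (UT.conv2 ha' ha' hA hA ha ha)
    (UT.conv2 ha' ha' hA hA ha ha)

lemma UT.TT' (ha' : ∀ i, Continuous (a i)) (hA : Continuous A) (ha : UT a A) :
    UT (fun i => TT μ (a i)) (TT μ A) :=
  UT.pow4 (cont_H4 hA) (UT.H4 (μ := μ) ha' hA ha)

lemma UT.dTT (ha' : ∀ i, Continuous (a i)) (hb' : ∀ i, Continuous (b i)) (hA : Continuous A)
    (hB : Continuous B) (ha : UT a A) (hb : UT b B) :
    UT (fun i => dTT μ (a i) (b i)) (dTT μ A B) := by
  have h4 := UT.H4 (μ := μ) ha' hA ha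
  have c4 := cont_H4 (μ := μ) hA
  have h42 := UT.mul c4 c4 h4 h4
  have h43 := UT.mul (c4.mul c4) c4 h42 h4
  have h5 := UT.mul (continuous_const : Continuous fun _ : G => (4 : ℝ)) ((c4.mul c4).mul c4)
    (UT.const _) h43
  have h6 := UT.mul (continuous_const.mul ((c4.mul c4).mul c4)) (cont_dH4 (μ := μ) hA hB) h5
    (UT.dH4 (μ := μ) ha' hb' hA hB ha hb)
  have e : ∀ f g : G → ℝ, Pool.Agent.N681.MK.dTT μ f g = fun x =>
      4 * (Pool.Agent.N989.MK.H4 μ f x * Pool.Agent.N989.MK.H4 μ f x *
        Pool.Agent.N989.MK.H4 μ f x) * Pool.Agent.N681.MK.dH4 μ f g x := by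
    intro f g
    funext x
    unfold Pool.Agent.N681.MK.dTT
    ring
  simp only [e]
  exact h6

lemma UT.TTn' (ha' : ∀ i, Continuous (a i)) (hA : Continuous A) (ha : UT a A) :
    ∀ n, UT (fun i => TTn μ (a i) n) (TTn μ A n)
  | 0 => ha
  | n + 1 => UT.TT' (fun i => cont_TTn (ha' i) n) (cont_TTn hA n) (UT.TTn' ha' hA ha n)

lemma UT.dTn (ha' : ∀ i, Continuous (a i)) (hb' : ∀ i, Continuous (b i)) (hA : Continuous A)
    (hB : Continuous B) (ha : UT a A) (hb : UT b B) :
    ∀ n, UT (fun i => dTn μ (a i) (b i) n) (dTn μ A B n)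
  | 0 => hb
  | n + 1 => UT.dTT (fun i => cont_TTn (ha' i) n) (fun i => cont_dTn (ha' i) (hb' i) n)
      (cont_TTn hA n) (cont_dTn hA hB n) (UT.TTn' ha' hA ha n) (UT.dTn ha' hb' hA hB ha hb n)

omit [MeasurableSpace G] [BorelSpace G] [SecondCountableTopology G] [IsTopologicalGroup G] in
lemma UT.fld (hA : Continuous A) (hp : ∀ x, 0 < A x)
    (hB : Continuous B) (ha : UT a A) (hb : UT b B) :
    UT (fun i => fld (a i) (b i)) (fld A B) := by
  have h1 := UT.mul hB (hA.inv₀ fun x => (hp x).ne') hb (UT.inv hA hp ha)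
  have h2 := UT.sub h1 (UT.at h1 1)
  have e : ∀ f g : G → ℝ, Pool.Agent.N681.MK.fld f g = fun x =>
      g x * (f x)⁻¹ - g 1 * (f 1)⁻¹ := by
    intro f g
    funext x
    unfold Pool.Agent.N681.MK.fld
    simp only [div_eq_mul_inv]
  simp only [e]
  exact h2

/-- the iterated field is a continuous function of the weight and of the field -/
lemma UT.fldn (ha' : ∀ i, Adm (a i)) (hb' : ∀ i, Continuous (b i)) (hA : Adm A)
    (hB : Continuous B) (ha : UT a A) (hb : UT b B) (n : ℕ) :
    UT (fun i => Pool.Agent.N681.MK.fld (TTn μ (a i) n)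
        (Pool.Agent.N681.MK.dTn μ (a i) (fun x => b i x * a i x) n))
      (Pool.Agent.N681.MK.fld (TTn μ A n) (Pool.Agent.N681.MK.dTn μ A (fun x => B x * A x) n)) := by
  have h1 := UT.mul hB hA.cont hb ha
  exact UT.fld (cont_TTn hA.cont n) (hA.TTn (μ := μ) n).pos (cont_dTn hA.cont (hB.mul hA.cont) n)
    (UT.TTn' (fun i => (ha' i).cont) hA.cont ha n)
    (UT.dTn (fun i => (ha' i).cont) (fun i => (hb' i).mul (ha' i).cont) hA.cont
      (hB.mul hA.cont) ha h1 n)

end

end Pool.Agent.N681.MK
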