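import Mathlib
import Pool.Agent.N989.MK.PairR

/-!
# The linearised recursion along a trajectory: no anomalous dimension
-/

open Pool.Agent.N989.MK

namespace Pool.Agent.N681.MK

noncomputable section

lemma sum_inv_sq {x c : ℝ} (hx : 0 < x) (hc : 0 < c) (n : ℕ) :
    ∑ m ∈ Finset.range n, 1 / (x + c * (m + 1)) ^ 2 ≤ 1 / c * (1 / x) := by
  have key : ∀ n : ℕ, ∑ m ∈ Finset.range n, 1 / (x + c * (m + 1)) ^ 2 ≤
      1 / c * (1 / x - 1 / (x + c * n)) := by
    intro n
    induction n with
    | zero => simp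
    | succ n ih =>
      rw [Finset.sum_range_succ]
      push_cast
      have hn : (0 : ℝ) ≤ n := Nat.cast_nonneg n
      have p1 : 0 < x + c * n := by positivity
      have p2 : 0 < x + c * (n + 1) := by positivity
      have h1 : 1 / (x + c * (n + 1)) ^ 2 ≤
          1 / c * (1 / (x + c * n) - 1 / (x + c * (n + 1))) := by
        have e : 1 / c * (1 / (x + c * n) - 1 / (x + c * (n + 1))) =
            1 / ((x + c * n) * (x + c * (n + 1))) := by
          field_simp
          ring
        rw [e, sq]
        refine one_div_le_one_div_of_le (mul_pos p1 p2) ?_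
        refine mul_le_mul_of_nonneg_right ?_ p2.le
        nlinarith
      linarith
  refine (key n).trans ?_
  have hn : (0 : ℝ) ≤ n := Nat.cast_nonneg n
  have : 0 ≤ 1 / (x + c * n) := by positivity
  have h2 : 0 < 1 / c := by positivity
  nlinarith

/-- **the linearised recursion**: the coefficient stays within `B / h` of its initial value -/
theorem tan_real {c C C' R : ℝ} (hc : 0 < c) (hC : 0 ≤ C) (hC' : 0 ≤ C') (hR : 0 ≤ R) :
    ∃ H0 B : ℝ, 1 ≤ H0 ∧ 0 ≤ B ∧ B ≤ H0 ∧ ∀ (H : ℝ) (J : ℕ) (h ρ a l : ℕ → ℝ), H0 ≤ H →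
      TR c C H h ρ J → H ≤ h J → 0 ≤ ρ 0 → ρ 0 ≤ R →
      (∀ i ≤ J, 0 ≤ l i) → (∀ i < J, l (i + 1) ≤ l i / 4 + C' * |a i| / h i) →
      (∀ i < J, |a (i + 1) - a i| ≤ C' * (l i / h i + (|a i| + l i) * (ρ i + 1 / h i) / h i)) →
      ∀ i ≤ J, |a i - a 0| ≤ B * (|a 0| + l 0) / h i ∧
        l i ≤ (1 / 4) ^ i * l 0 + B * (|a 0| + l 0) / h i ∧
        h i / 2 + c / 2 * i ≤ h 0 := by
  set B1 := 4 / 3 * C * (R + 2) with hB1
  set D := 8 * C' with hD
  set E1 := C' * (1 + (3 + D) * R) with hE1
  set E2 := C' * (D + (3 + D) * (4 * C + 1)) with hE2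
  set B := 3 * E1 + 4 * E2 / c + D with hB
  have hB10 : 0 ≤ B1 := by positivity
  have hD0 : 0 ≤ D := by positivity
  have hE10 : 0 ≤ E1 := by positivity
  have hE20 : 0 ≤ E2 := by positivity
  have hB0 : 0 ≤ B := by positivity
  set H0 := max (max 1 (C + C * (R + 3))) (max (2 * B1) (max B (2 * (C + 4 / 3 * C ^ 2) / c)))
    with hH0
  have q1 : 1 ≤ H0 := (le_max_left _ _).trans (le_max_left _ _)
  have q2 : C + C * (R + 3) ≤ H0 := (le_max_right _ _).trans (le_max_left _ _)
  have q3 : 2 * B1 ≤ H0 := (le_max_left _ _).trans (le_max_right _ _)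
  have q4 : B ≤ H0 := (le_max_left _ _).trans ((le_max_right _ _).trans (le_max_right _ _))
  have q5 : 2 * (C + 4 / 3 * C ^ 2) / c ≤ H0 :=
    (le_max_right _ _).trans ((le_max_right _ _).trans (le_max_right _ _))
  refine ⟨H0, B, q1, hB0, q4, fun H J h ρ a l hH t hJ r0 rR hl h1 h2 => ?_⟩
  have hH1 : 1 ≤ H := q1.trans hH
  have hHp : 0 < H := by linarith
  have hCR : 0 ≤ C * (R + 3) := by positivity
  have hCH : C ≤ H := by linarith
  have hCH2 : C * (R + 3) ≤ H := by linarith
  have hcH : 2 * (C + 4 / 3 * C ^ 2) ≤ c * H := by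
    rw [div_le_iff₀ hc] at q5
    nlinarith
  have hlo : ∀ i ≤ J, H ≤ h i := by
    intro i hi
    rcases Nat.lt_or_ge i J with h3 | h3
    · exact t.big i h3
    · obtain rfl : i = J := by omega
      exact hJ
  have hJ0 : 0 < h J := by linarith
  have F1 : ∀ s m, s + m ≤ J → h (s + m) / 2 + c / 2 * m ≤ h s := by
    intro s m hsm
    have h3 := t.crude hHp hC hCH hcH r0 rR s m hsm
    have h4 := hlo (s + m) hsm
    linarith
  have F2 := t.ra2 hc.le hC hHp hCH hCH2 hH1 r0 rR hJ0
  set N := |a 0| + l 0 with hN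
  have hl0 := hl 0 (by omega)
  have hN0 : 0 ≤ N := add_nonneg (abs_nonneg _) hl0
  have hlN : l 0 ≤ N := by have := abs_nonneg (a 0); linarith
  have key : ∀ i ≤ J, (∀ s ≤ i, |a s| ≤ 2 * N ∧ l s ≤ (1 / 4) ^ s * l 0 + D * N / h s) ∧
      |a i - a 0| ≤ B * N / h i := by
    intro i
    induction i with
    | zero =>
      intro _
      have h0 : 0 < h 0 := by have := hlo 0 (by omega); linarith
      refine ⟨fun s hs => ?_, ?_⟩
      · obtain rfl : s = 0 := by omega
        refine ⟨by linarith, ?_⟩
        have : 0 ≤ D * N / h 0 := by positivity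
        simp only [pow_zero, one_mul]
        linarith
      · simp only [sub_self, abs_zero]
        positivity
    | succ i ih =>
      intro hi
      obtain ⟨ih1, -⟩ := ih (by omega)
      have hi0 : 0 < h i := by have := hlo i (by omega); linarith
      have hi1 : 0 < h (i + 1) := by have := hlo (i + 1) hi; linarith
      have hrec : ∀ s ≤ i, 1 / h s ≤ 2 / h (i + 1) := by
        intro s hs
        have hs0 : 0 < h s := by have := hlo s (by omega); linarith
        obtain ⟨m, hm⟩ := Nat.exists_eq_add_of_le (show s ≤ i + 1 by omega)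
        have h3 := F1 s m (by omega)
        rw [← hm] at h3
        have h4 : 0 ≤ c / 2 * (m : ℝ) := by positivity
        rw [div_le_div_iff₀ hs0 hi1]
        linarith
      have hlb : l (i + 1) ≤ (1 / 4) ^ (i + 1) * l 0 + D * N / h (i + 1) := by
        have h3 := h1 i (by omega)
        obtain ⟨h4, h5⟩ := ih1 i le_rfl
        have h6 : C' * |a i| / h i ≤ C' * (2 * N) / h i :=
          div_le_div_of_nonneg_right (mul_le_mul_of_nonneg_left h4 hC') hi0.le
        have h7 := hrec i le_rfl
        have h8 : D * N / h i / 4 + C' * (2 * N) / h i = (D / 4 + 2 * C') * N * (1 / h i) := by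
          ring
        have h9 : (D / 4 + 2 * C') * N * (1 / h i) ≤ (D / 4 + 2 * C') * N * (2 / h (i + 1)) :=
          mul_le_mul_of_nonneg_left h7 (by positivity)
        have h10 : (D / 4 + 2 * C') * N * (2 / h (i + 1)) = D * N / h (i + 1) := by
          rw [hD]; ring
        have h11 : (1 / 4 : ℝ) ^ (i + 1) * l 0 = (1 / 4) ^ i * l 0 / 4 := by
          rw [pow_succ]; ring
        rw [h11]
        linarith
      -- the increments
      have hinc : ∀ s ≤ i, |a (s + 1) - a s| ≤
          N * (E1 * ((1 / 4) ^ s * (2 / h (i + 1))) + E2 * (1 / h s ^ 2)) := by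
        intro s hs
        have hs0 : 0 < h s := by have := hlo s (by omega); linarith
        have hs1 : 1 ≤ h s := by have := hlo s (by omega); linarith
        have g1 := h2 s (by omega)
        obtain ⟨g2, g3⟩ := ih1 s hs
        have g4 := F2 s (by omega)
        have g5 := hl s (by omega)
        have g6 : 0 ≤ ρ s := t.nonneg r0 s (by omega)
        have p4 : (0 : ℝ) ≤ (1 / 4) ^ s := by positivity
        have p41 : (1 / 4 : ℝ) ^ s ≤ 1 := pow_le_one₀ (by norm_num) (by norm_num)
        have g7 : l s ≤ (1 / 4) ^ s * N + D * N / h s := by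
          have := mul_le_mul_of_nonneg_left hlN p4
          linarith
        have g8 : D * N / h s ≤ D * N := div_le_self (by positivity) hs1
        have g9 : (1 / 4 : ℝ) ^ s * N ≤ N := by nlinarith
        have g10 : |a s| + l s ≤ (3 + D) * N := by linarith
        have g11 : ρ s + 1 / h s ≤ (1 / 4) ^ s * R + (4 * C + 1) / h s := by
          rw [add_div]; linarith
        have g12 : (|a s| + l s) * (ρ s + 1 / h s) ≤
            (3 + D) * N * ((1 / 4) ^ s * R + (4 * C + 1) / h s) :=
          mul_le_mul g10 g11 (by positivity) (by positivity)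
        have g13 : l s / h s ≤ ((1 / 4) ^ s * N + D * N / h s) / h s :=
          div_le_div_of_nonneg_right g7 hs0.le
        have g14 : (|a s| + l s) * (ρ s + 1 / h s) / h s ≤
            (3 + D) * N * ((1 / 4) ^ s * R + (4 * C + 1) / h s) / h s :=
          div_le_div_of_nonneg_right g12 hs0.le
        have g15 : C' * (l s / h s + (|a s| + l s) * (ρ s + 1 / h s) / h s) ≤
            C' * (((1 / 4) ^ s * N + D * N / h s) / h s +
              (3 + D) * N * ((1 / 4) ^ s * R + (4 * C + 1) / h s) / h s) :=
          mul_le_mul_of_nonneg_left (by linarith) hC'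
        have e1 : C' * (((1 / 4) ^ s * N + D * N / h s) / h s +
              (3 + D) * N * ((1 / 4) ^ s * R + (4 * C + 1) / h s) / h s) =
            N * (E1 * ((1 / 4) ^ s * (1 / h s)) + E2 * (1 / h s ^ 2)) := by
          rw [hE1, hE2]
          field_simp
          ring
        rw [e1] at g15
        refine (g1.trans g15).trans ?_
        have g16 := mul_le_mul_of_nonneg_left (hrec s hs) p4
        have g17 := mul_le_mul_of_nonneg_left g16 hE10
        exact mul_le_mul_of_nonneg_left (by linarith) hN0
      have htel : |a (i + 1) - a 0| ≤ ∑ s ∈ Finset.range (i + 1), |a (s + 1) - a s| := by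
        rw [← Finset.sum_range_sub (f := a)]
        exact Finset.abs_sum_le_sum_abs _ _
      have hsum1 : ∑ s ∈ Finset.range (i + 1), |a (s + 1) - a s| ≤
          ∑ s ∈ Finset.range (i + 1),
            N * (E1 * ((1 / 4) ^ s * (2 / h (i + 1))) + E2 * (1 / h s ^ 2)) :=
        Finset.sum_le_sum fun s hs => hinc s (by have := Finset.mem_range.1 hs; omega)
      have hgeo : ∑ s ∈ Finset.range (i + 1), (1 / 4 : ℝ) ^ s ≤ 4 / 3 := by
        refine (geo_le (by norm_num) (by norm_num) (i + 1)).trans ?_
        norm_num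
      have hsq : ∑ s ∈ Finset.range (i + 1), 1 / h s ^ 2 ≤ 4 / c * (1 / h (i + 1)) := by
        have h3 : ∀ s ∈ Finset.range (i + 1), 1 / h s ^ 2 ≤
            1 / (h (i + 1) / 2 + c / 2 * (((i + 1 - 1 - s : ℕ) : ℝ) + 1)) ^ 2 := by
          intro s hs
          have hs' := Finset.mem_range.1 hs
          have h4 := F1 s (i + 1 - s) (by omega)
          have e1 : s + (i + 1 - s) = i + 1 := by omega
          have e2 : ((i + 1 - s : ℕ) : ℝ) = ((i + 1 - 1 - s : ℕ) : ℝ) + 1 := by
            have : i + 1 - s = (i + 1 - 1 - s) + 1 := by omega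
            rw [this]
            push_cast
            ring
          rw [e1, e2] at h4
          refine one_div_le_one_div_of_le (by positivity) ?_
          exact pow_le_pow_left₀ (by positivity) h4 2
        refine (Finset.sum_le_sum h3).trans ?_
        rw [Finset.sum_range_reflect (fun m : ℕ => 1 / (h (i + 1) / 2 + c / 2 * ((m : ℝ) + 1)) ^ 2)]
        refine (sum_inv_sq (by positivity) (by positivity) (i + 1)).trans (le_of_eq ?_)
        field_simp
        ring
      have hB' : |a (i + 1) - a 0| ≤ B * N / h (i + 1) := by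
        have h3 : ∑ s ∈ Finset.range (i + 1),
            N * (E1 * ((1 / 4) ^ s * (2 / h (i + 1))) + E2 * (1 / h s ^ 2)) =
            N * (E1 * (2 / h (i + 1)) * ∑ s ∈ Finset.range (i + 1), (1 / 4 : ℝ) ^ s +
              E2 * ∑ s ∈ Finset.range (i + 1), 1 / h s ^ 2) := by
          rw [← Finset.mul_sum, Finset.sum_add_distrib, ← Finset.mul_sum, ← Finset.mul_sum,
            ← Finset.sum_mul]
          ring
        rw [h3] at hsum1
        have h4 : E1 * (2 / h (i + 1)) * ∑ s ∈ Finset.range (i + 1), (1 / 4 : ℝ) ^ s ≤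
            E1 * (2 / h (i + 1)) * (4 / 3) := mul_le_mul_of_nonneg_left hgeo (by positivity)
        have h5 := mul_le_mul_of_nonneg_left hsq hE20
        have h6 : N * (E1 * (2 / h (i + 1)) * (4 / 3) + E2 * (4 / c * (1 / h (i + 1)))) ≤
            B * N / h (i + 1) := by
          have e1 : N * (E1 * (2 / h (i + 1)) * (4 / 3) + E2 * (4 / c * (1 / h (i + 1)))) =
              (8 / 3 * E1 + 4 * E2 / c) * (N / h (i + 1)) := by ring
          have e2 : B * N / h (i + 1) = B * (N / h (i + 1)) := by ring
          rw [e1, e2]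
          refine mul_le_mul_of_nonneg_right ?_ (by positivity)
          rw [hB]
          linarith
        have h7 : N * (E1 * (2 / h (i + 1)) * ∑ s ∈ Finset.range (i + 1), (1 / 4 : ℝ) ^ s +
              E2 * ∑ s ∈ Finset.range (i + 1), 1 / h s ^ 2) ≤
            N * (E1 * (2 / h (i + 1)) * (4 / 3) + E2 * (4 / c * (1 / h (i + 1)))) :=
          mul_le_mul_of_nonneg_left (by linarith) hN0
        linarith
      refine ⟨fun s hs => ?_, hB'⟩
      rcases (show s ≤ i ∨ s = i + 1 by omega) with h3 | rfl
      · exact ih1 s h3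
      · refine ⟨?_, hlb⟩
        have h3 : B * N / h (i + 1) ≤ N := by
          rw [div_le_iff₀ hi1]
          have h4 := hlo (i + 1) hi
          have h5 : B ≤ h (i + 1) := by linarith
          nlinarith
        have h4 : |a (i + 1)| ≤ |a (i + 1) - a 0| + |a 0| := by
          have := abs_sub_abs_le_abs_sub (a (i + 1)) (a 0)
          linarith
        linarith
  intro i hi
  obtain ⟨k1, k2⟩ := key i hi
  have hi0 : 0 < h i := by have := hlo i hi; linarith
  refine ⟨k2, (k1 i le_rfl).2.trans ?_, ?_⟩
  · have : D * N / h i ≤ B * N / h i :=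
      div_le_div_of_nonneg_right (mul_le_mul_of_nonneg_right (by
        rw [hB]
        have : 0 ≤ 3 * E1 + 4 * E2 / c := by positivity
        linarith) hN0) hi0.le
    linarith
  · have := F1 0 i (by omega)
    rwa [zero_add] at this

end

end Pool.Agent.N681.MK
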