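import Mathlib
import Pool.Agent.N681.MK.Tan1
import Pool.Agent.N681.MK.Tan2

/-!
# Tangents along a trajectory of states
-/

open MeasureTheory Pool.Agent.N991.MK Pool.Agent.N989.MK Filter
open scoped Topology

namespace Pool.Agent.N681.MK

set_option linter.unusedSectionVars false

noncomputable section

variable {G : Type*} [Group G] [TopologicalSpace G] [IsTopologicalGroup G] [CompactSpace G]
  [MeasurableSpace G] [BorelSpace G] [SecondCountableTopology G]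
  {μ : Measure G} [IsProbabilityMeasure μ] [μ.IsHaarMeasure] [μ.IsMulRightInvariant]
  [μ.IsInvInvariant]

variable {P : (G → ℝ) → ℝ → ℝ → Prop} {T : (G → ℝ) → (G → ℝ) → ℝ → ℝ → ℝ → Prop}
  {o : G → ℝ} {κ h1 C' : ℝ} {Dm : ℕ} {c C R : ℝ}

lemma TP_shift {hq : ℝ} (hq0 : 0 < hq) (hC : 0 ≤ C) (hCq : C ≤ hq) {f : G → ℝ} {J : ℕ}
    {h ρ : ℕ → ℝ} (t : TP μ P c C hq R f J h ρ) {s J' : ℕ} (hs : s + J' ≤ J) :
    TP μ P c C hq (R + 2) (TTn μ f s) J' (fun i => h (s + i)) (fun i => ρ (s + i)) := by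
  refine ⟨fun i hi => ?_, fun i hi => t.lo _ (by omega), t.t.shift hs, ?_, ?_⟩
  · rw [← TTn_add]
    exact t.p _ (by omega)
  · exact t.t.bd hq0 hC hCq t.r0 t.r _ (by omega)
  · exact t.t.nonneg t.r0 _ (by omega)

/-- the tangent along a trajectory -/
lemma tan_seq (TF : TanFlow μ P T o κ h1 C' Dm) {hq : ℝ} (hh1 : h1 ≤ hq) {f g : G → ℝ} {J : ℕ}
    {h ρ : ℕ → ℝ} (tf : TP μ P c C hq R f J h ρ) {a0 l0 : ℝ} (h0 : T f g (h 0) a0 l0) :
    ∃ a l : ℕ → ℝ, a 0 = a0 ∧ l 0 = l0 ∧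
      (∀ i ≤ J, T (TTn μ f i) (dTn μ f g i) (h i) (a i) (l i)) ∧
      (∀ i < J, l (i + 1) ≤ l i / 4 + C' * |a i| / h i) ∧
      (∀ i < J, |a (i + 1) - a i| ≤
        C' * (l i / h i + (|a i| + l i) * (ρ i + 1 / h i) / h i)) := by
  have key : ∀ m ≤ J, ∃ a l : ℕ → ℝ, a 0 = a0 ∧ l 0 = l0 ∧
      (∀ i ≤ m, T (TTn μ f i) (dTn μ f g i) (h i) (a i) (l i)) ∧
      (∀ i < m, l (i + 1) ≤ l i / 4 + C' * |a i| / h i) ∧
      (∀ i < m, |a (i + 1) - a i| ≤
        C' * (l i / h i + (|a i| + l i) * (ρ i + 1 / h i) / h i)) := by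
    intro m
    induction m with
    | zero =>
      intro _
      refine ⟨fun _ => a0, fun _ => l0, rfl, rfl, fun i hi => ?_,
        fun i hi => absurd hi (by omega), fun i hi => absurd hi (by omega)⟩
      obtain rfl : i = 0 := by omega
      exact h0
    | succ m ih =>
      intro hm
      obtain ⟨a, l, l1, l2, l3, l4, l5⟩ := ih (by omega)
      obtain ⟨a', l', b1, b2, b3⟩ := TF.step _ _ _ _ _ _ _ _ (tf.p m (by omega))
        (tf.p (m + 1) hm) (l3 m le_rfl) (hh1.trans (tf.lo m (by omega)))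
        (hh1.trans (tf.lo (m + 1) hm))
      refine ⟨fun i => if i ≤ m then a i else a', fun i => if i ≤ m then l i else l', by simp [l1],
        by simp [l2], fun i hi => ?_, fun i hi => ?_, fun i hi => ?_⟩
      · by_cases h3 : i ≤ m
        · simp only [h3, if_true]; exact l3 i h3
        · obtain rfl : i = m + 1 := by omega
          simp only [h3, if_false]; exact b1
      · rcases (show i < m ∨ i = m by omega) with h3 | rfl
        · simp only [show i ≤ m by omega, show i + 1 ≤ m by omega, if_true]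
          exact l4 i h3
        · simp only [le_refl, show ¬ i + 1 ≤ i by omega, if_true, if_false]
          exact b2
      · rcases (show i < m ∨ i = m by omega) with h3 | rfl
        · simp only [show i ≤ m by omega, show i + 1 ≤ m by omega, if_true]
          exact l5 i h3
        · simp only [le_refl, show ¬ i + 1 ≤ i by omega, if_true, if_false]
          exact b3
  exact key J le_rfl

/-- **the tangent along a trajectory**: the coefficient does not change up to `O (1 / h)` and the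
error is of the order `1 / h` after a transient -/
theorem tan_flow (TF : TanFlow μ P T o κ h1 C' Dm) (hc : 0 < c) (hC : 0 ≤ C) (hR : 0 ≤ R) :
    ∃ H0 B : ℝ, 1 ≤ H0 ∧ 0 ≤ B ∧ B ≤ H0 ∧ C ≤ H0 ∧ h1 ≤ H0 ∧ ∀ (hq : ℝ) (f g : G → ℝ) (J : ℕ)
      (h ρ : ℕ → ℝ) (a0 l0 : ℝ), H0 ≤ hq → TP μ P c C hq R f J h ρ → T f g (h 0) a0 l0 →
      ∀ i ≤ J, ∃ a l : ℝ, T (TTn μ f i) (dTn μ f g i) (h i) a l ∧
        |a - a0| ≤ B * (|a0| + l0) / h i ∧ l ≤ (1 / 4) ^ i * l0 + B * (|a0| + l0) / h i ∧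
        h i / 2 + c / 2 * i ≤ h 0 := by
  obtain ⟨H0, B, b1, b2, b3, b4⟩ := tan_real hc hC TF.C_nn hR
  refine ⟨max H0 (max C h1), B, b1.trans (le_max_left _ _), b2, b3.trans (le_max_left _ _),
    (le_max_left _ _).trans (le_max_right _ _), (le_max_right _ _).trans (le_max_right _ _),
    fun hq f g J h ρ a0 l0 hhq tf h0 => ?_⟩
  have hq1 : H0 ≤ hq := (le_max_left _ _).trans hhq
  have hq2 : h1 ≤ hq := ((le_max_right _ _).trans (le_max_right _ _)).trans hhq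
  obtain ⟨a, l, e1, e2, e3, e4, e5⟩ := tan_seq TF hq2 tf h0
  have h3 := b4 hq J h ρ a l hq1 tf.t (tf.lo J le_rfl) tf.r0 tf.r
    (fun i hi => TF.nn _ _ _ _ _ (e3 i hi)) e4 e5
  rw [e1, e2] at h3
  exact fun i hi => ⟨a i, l i, e3 i hi, h3 i hi⟩

/-- **the comparison with the bare insertion at a later scale** -/
theorem tan_cmp (TF : TanFlow μ P T o κ h1 C' Dm) (hc : 0 < c) (hC : 0 ≤ C) (hR : 0 ≤ R)
    (ho : Continuous o) :
    ∃ H0 E : ℝ, 1 ≤ H0 ∧ h1 ≤ H0 ∧ C ≤ H0 ∧ 0 ≤ E ∧ ∀ (hq : ℝ) (f : G → ℝ) (J : ℕ)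
      (h ρ : ℕ → ℝ), H0 ≤ hq → Adm f → TP μ P c C hq R f J h ρ → ∀ s n r, s + n + r = J →
      ∀ x, |(dTn μ f (fun y => o y * f y) J x -
            dTn μ (TTn μ f s) (fun y => o y * TTn μ f s y) (n + r) x) / TTn μ f J 1 -
          (dTn μ f (fun y => o y * f y) J 1 -
            dTn μ (TTn μ f s) (fun y => o y * TTn μ f s y) (n + r) 1) * TTn μ f J x /
              TTn μ f J 1 ^ 2| ≤
        E * h J ^ Dm * ((1 / 4) ^ n + 1 / (1 + c * r)) := by
  obtain ⟨H0, B, b1, b2, b3, b4, b5, b6⟩ := tan_flow (R := R + 2) TF hc hC (by linarith)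
  have hC' := TF.C_nn
  set N0 := |κ| + C' with hN0
  have hN00 : 0 ≤ N0 := by positivity
  have hCN : C' ≤ N0 := by have := abs_nonneg κ; linarith
  have hκN : |κ| ≤ N0 := by linarith
  refine ⟨H0, C' * (4 * (30 * (B + 1) * N0)), b1, b5, b4, by positivity,
    fun hq f J h ρ hhq hf tf s n r hsum x => ?_⟩
  have hq0 : 0 < hq := by linarith
  have hCq : C ≤ hq := b4.trans hhq
  have hlo : ∀ i ≤ J, 0 < h i ∧ B ≤ h i ∧ 1 ≤ h i := fun i hi => by
    have := tf.lo i hi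
    exact ⟨by linarith, by linarith, by linarith⟩
  have tf' : TP μ P c C hq (R + 2) f J h ρ := ⟨tf.p, tf.lo, tf.t, by linarith [tf.r], tf.r0⟩
  -- the tangent at the scale `s`
  have i0 : T f (fun x => o x * f x) (h 0) κ C' :=
    TF.init _ _ _ (tf.p 0 (by omega)) ((b5.trans hhq).trans (tf.lo 0 (by omega)))
  obtain ⟨a1, l1, t1, t2, t3, t4⟩ := b6 hq f _ J h ρ κ C' hhq tf' i0 s (by omega)
  obtain ⟨s0, sB, s1⟩ := hlo s (by omega)
  have hBN : ∀ i ≤ J, ∀ N : ℝ, 0 ≤ N → B * N / h i ≤ N := by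
    intro i hi N hN
    obtain ⟨g1, g2, g3⟩ := hlo i hi
    rw [div_le_iff₀ g1]
    nlinarith
  have u1 : |a1| ≤ 2 * N0 := by
    have := hBN s (by omega) N0 hN00
    have := abs_sub_abs_le_abs_sub a1 κ
    linarith
  have u2 : l1 ≤ 2 * N0 := by
    have g1 := hBN s (by omega) N0 hN00
    have g2 : (1 / 4 : ℝ) ^ s ≤ 1 := pow_le_one₀ (by norm_num) (by norm_num)
    have g3 : (1 / 4 : ℝ) ^ s * C' ≤ 1 * C' := mul_le_mul_of_nonneg_right g2 hC'
    linarith
  have u3 : 0 ≤ l1 := TF.nn _ _ _ _ _ t1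
  -- the two tangents at the scale `s + n`
  have ts := TP_shift (s := s) (J' := n + r) hq0 hC hCq tf (by omega)
  have i1 : T (TTn μ f s) (fun x => o x * TTn μ f s x) (h (s + 0)) κ C' :=
    TF.init _ _ _ (by simpa using tf.p s (by omega))
      ((b5.trans hhq).trans (tf.lo _ (by omega)))
  obtain ⟨a2, l2, v1, v2, v3, v4⟩ := b6 hq (TTn μ f s) _ (n + r) _ _ a1 l1 hhq ts t1 n (by omega)
  obtain ⟨a3, l3, w1, w2, w3, w4⟩ := b6 hq (TTn μ f s) _ (n + r) _ _ κ C' hhq ts i1 n (by omega)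
  rw [add_zero] at v4
  have w0 := TF.sub _ _ _ _ _ _ _ _ v1 w1
  obtain ⟨n0, nB, n1⟩ := hlo (s + n) (by omega)
  obtain ⟨J0, JB, J1⟩ := hlo J le_rfl
  have hN1 : |a1| + l1 ≤ 4 * N0 := by linarith
  have y1 : B * (|a1| + l1) / h (s + n) ≤ B * (4 * N0) / h (s + n) :=
    div_le_div_of_nonneg_right (mul_le_mul_of_nonneg_left hN1 b2) n0.le
  have y2 : 1 / h s ≤ 2 / h (s + n) := by
    rw [div_le_div_iff₀ s0 n0]
    have : 0 ≤ c / 2 * (n : ℝ) := by positivity
    linarith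
  have y3 : B * N0 / h s ≤ B * N0 * (2 / h (s + n)) := by
    have := mul_le_mul_of_nonneg_left y2 (mul_nonneg b2 hN00)
    have e : B * N0 / h s = B * N0 * (1 / h s) := by ring
    rw [e]
    exact this
  have hp4 : (0 : ℝ) ≤ (1 / 4) ^ n := by positivity
  set X := 1 / h (s + n) with hX
  have hX0 : 0 ≤ X := by positivity
  have z1 : |a2 - a3| ≤ 7 * B * N0 * X := by
    have e : a2 - a3 = (a2 - a1) + (a1 - κ) - (a3 - κ) := by ring
    have g1 : |a2 - a3| ≤ |a2 - a1| + |a1 - κ| + |a3 - κ| := by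
      rw [e]
      refine (abs_sub _ _).trans ?_
      have := abs_add_le (a2 - a1) (a1 - κ)
      linarith
    have e1 : B * (4 * N0) / h (s + n) = 4 * (B * N0 * X) := by rw [hX]; ring
    have e2 : B * N0 * (2 / h (s + n)) = 2 * (B * N0 * X) := by rw [hX]; ring
    have e3 : B * (|κ| + C') / h (s + n) = B * N0 * X := by rw [hX, hN0]; ring
    rw [e1] at y1
    rw [e2] at y3
    rw [e3] at w2
    have e4 : B * (|κ| + C') / h s = B * N0 / h s := rfl
    rw [e4] at t2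
    linarith
  have z2 : l2 + l3 ≤ 3 * N0 * (1 / 4) ^ n + 5 * B * N0 * X := by
    have e1 : B * (4 * N0) / h (s + n) = 4 * (B * N0 * X) := by rw [hX]; ring
    have e3 : B * (|κ| + C') / h (s + n) = B * N0 * X := by rw [hX, hN0]; ring
    rw [e1] at y1
    rw [e3] at w3
    have g1 : (1 / 4 : ℝ) ^ n * l1 ≤ (1 / 4) ^ n * (2 * N0) := mul_le_mul_of_nonneg_left u2 hp4
    have g2 : (1 / 4 : ℝ) ^ n * C' ≤ (1 / 4) ^ n * N0 := mul_le_mul_of_nonneg_left hCN hp4
    linarith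
  have z3 : 0 ≤ l2 + l3 := add_nonneg (TF.nn _ _ _ _ _ v1) (TF.nn _ _ _ _ _ w1)
  -- the final trajectory
  have tr := TP_shift (s := s + n) (J' := r) hq0 hC hCq tf (by omega)
  have e5 : TTn μ (TTn μ f s) n = TTn μ f (s + n) := (TTn_add f s n).symm
  rw [e5] at w0
  obtain ⟨a4, l4, x1, x2, x3, x4⟩ := b6 hq (TTn μ f (s + n)) _ r _ _ (a2 - a3) (l2 + l3) hhq tr
    (by simpa using w0) r le_rfl
  have e6 : s + n + r = J := hsum
  rw [e6] at x1 x2 x3 x4
  rw [← TTn_add, e6] at x1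
  set N2 := |a2 - a3| + (l2 + l3) with hN2
  have hN20 : 0 ≤ N2 := add_nonneg (abs_nonneg _) z3
  have hN2le : N2 ≤ 3 * N0 * (1 / 4) ^ n + 12 * B * N0 * X := by linarith
  have hBN2 := hBN J le_rfl N2 hN20
  have k1 : |a4| ≤ 2 * N2 := by
    have := abs_sub_abs_le_abs_sub a4 (a2 - a3)
    linarith
  have k2 : l4 ≤ 2 * N2 := by
    have g2 : (1 / 4 : ℝ) ^ r ≤ 1 := pow_le_one₀ (by norm_num) (by norm_num)
    have g3 : (1 / 4 : ℝ) ^ r * (l2 + l3) ≤ 1 * (l2 + l3) := mul_le_mul_of_nonneg_right g2 z3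
    have := abs_nonneg (a2 - a3)
    linarith
  have hcl := TF.close _ _ _ _ _ _ (tf.p J le_rfl) x1 ((b5.trans hhq).trans (tf.lo J le_rfl)) x
  -- the identification of the difference
  have hfs : Continuous (TTn μ f s) := cont_TTn hf.cont s
  have hc1 : Continuous (dTn μ (TTn μ f s) (dTn μ f (fun y => o y * f y) s) n) :=
    cont_dTn hfs (cont_dTn hf.cont (ho.mul hf.cont) s) n
  have hc2 : Continuous (dTn μ (TTn μ f s) (fun x => o x * TTn μ f s x) n) :=
    cont_dTn hfs (ho.mul hfs) n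
  have e7 : dTn μ (TTn μ f (s + n)) (fun x =>
      dTn μ (TTn μ f s) (dTn μ f (fun y => o y * f y) s) n x -
        dTn μ (TTn μ f s) (fun x => o x * TTn μ f s x) n x) r = fun x =>
      dTn μ f (fun y => o y * f y) J x -
        dTn μ (TTn μ f s) (fun x => o x * TTn μ f s x) (n + r) x := by
    rw [dTn_sub (cont_TTn hf.cont _) hc1 hc2]
    funext y
    rw [← dTn_add, ← dTn_add, e6]
    have e8 : dTn μ (TTn μ f s) (fun x => o x * TTn μ f s x) (n + r) =
        dTn μ (TTn μ f (s + n)) (dTn μ (TTn μ f s) (fun x => o x * TTn μ f s x) n) r := by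
      rw [dTn_add, e5]
    rw [e8]
  rw [e7] at hcl
  refine hcl.trans ?_
  have k3 : h J / 2 + c / 2 * (r : ℝ) ≤ h (s + n) := by
    have := x4
    rw [add_zero] at this
    exact this
  have hr0 : (0 : ℝ) ≤ r := Nat.cast_nonneg r
  have k4 : X ≤ 2 * (1 / (1 + c * r)) := by
    rw [hX, mul_one_div, div_le_div_iff₀ n0 (by positivity)]
    linarith
  set Y := 1 / (1 + c * (r : ℝ)) with hY
  have hY0 : 0 ≤ Y := by positivity
  have hJD : 0 ≤ h J ^ Dm := by positivity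
  have k5 : |a4| + l4 ≤ 4 * (30 * (B + 1) * N0) * ((1 / 4) ^ n + Y) := by
    have g1 : 12 * B * N0 * X ≤ 12 * B * N0 * (2 * Y) := mul_le_mul_of_nonneg_left k4 (by positivity)
    have g2 : 0 ≤ N0 * (1 / 4 : ℝ) ^ n := by positivity
    have g3 : 0 ≤ N0 * Y := by positivity
    have g4 : 0 ≤ B * N0 * Y := by positivity
    have g5 : 0 ≤ B * N0 * (1 / 4 : ℝ) ^ n := by positivity
    have g6 : 4 * (30 * (B + 1) * N0) * ((1 / 4) ^ n + Y) = 120 * (B * N0 * (1 / 4) ^ n) +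
        120 * (B * N0 * Y) + 120 * (N0 * (1 / 4) ^ n) + 120 * (N0 * Y) := by ring
    have g7 : 12 * B * N0 * (2 * Y) = 24 * (B * N0 * Y) := by ring
    have g8 : 3 * N0 * (1 / 4 : ℝ) ^ n = 3 * (N0 * (1 / 4) ^ n) := by ring
    rw [g6]
    linarith
  calc C' * h J ^ Dm * (|a4| + l4) ≤
        C' * h J ^ Dm * (4 * (30 * (B + 1) * N0) * ((1 / 4) ^ n + Y)) :=
        mul_le_mul_of_nonneg_left k5 (by positivity)
    _ = _ := by ring

end

end Pool.Agent.N681.MK
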