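import Mathlib
import Pool.Agent.N681.MK.Tan3

/-!
# The convergence of the renormalised operator
-/

open MeasureTheory Pool.Agent.N991.MK Pool.Agent.N989.MK Filter
open scoped Topology

namespace Pool.Agent.N681.MK

set_option linter.unusedSectionVars false

noncomputable section

variable {G : Type*} [Group G] [TopologicalSpace G] [IsTopologicalGroup G] [CompactSpace G]
  [MeasurableSpace G] [BorelSpace G] [SecondCountableTopology G]
  (μ : Measure G) [IsProbabilityMeasure μ] [μ.IsHaarMeasure] [μ.IsMulRightInvariant]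
  [μ.IsInvInvariant]

/-- the evolution of the field `φ` from the theory with the weight `f` during `n` steps -/
def evo (f φ : G → ℝ) (n : ℕ) : G → ℝ := fld (TTn μ f n) (dTn μ f (fun x => φ x * f x) n)

variable {μ}

variable {f φ : G → ℝ}

lemma evo_one (f φ : G → ℝ) (n : ℕ) : evo μ f φ n 1 = 0 := fld_one _ _

lemma cont_evo (hf : Adm f) (hφ : Continuous φ) (n : ℕ) : Continuous (evo μ f φ n) :=
  cont_fld' (cont_TTn hf.cont n) (hf.TTn n).pos (cont_dTn hf.cont (hφ.mul hf.cont) n)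

lemma evo_zero (hf : Adm f) (φ : G → ℝ) : evo μ f φ 0 = fun x => φ x - φ 1 := by
  funext x
  have h1 := (hf.pos x).ne'
  have h2 := (hf.pos 1).ne'
  have e1 : TTn μ f 0 = f := rfl
  have e2 : dTn μ f (fun x => φ x * f x) 0 = fun x => φ x * f x := rfl
  unfold evo fld
  rw [e1, e2]
  field_simp

lemma evo_nrm (hf : Adm f) (φ : G → ℝ) (n : ℕ) : evo μ (nrm μ f) φ n = evo μ f φ n :=
  fld_dTn_nrm hf φ n

lemma evo_add (hf : Adm f) (hφ : Continuous φ) (a b : ℕ) :
    evo μ f φ (a + b) = evo μ (TTn μ f a) (evo μ f φ a) b := by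
  have hc : Continuous (dTn μ f (fun x => φ x * f x) a) :=
    cont_dTn hf.cont (hφ.mul hf.cont) a
  unfold evo
  rw [fld_dTn_fld (hf.TTn a) hc, ← dTn_add, ← TTn_add]

lemma evo_congr_nrm {f g : G → ℝ} (hf : Adm f) (hg : Adm g) (h : nrm μ f = nrm μ g) (φ : G → ℝ)
    (n : ℕ) : evo μ f φ n = evo μ g φ n := by
  rw [← evo_nrm hf, ← evo_nrm hg, h]

variable {a b : ℕ → G → ℝ} {A B : G → ℝ}

lemma UT.evo (ha' : ∀ i, Adm (a i)) (hb' : ∀ i, Continuous (b i)) (hA : Adm A)
    (hB : Continuous B) (ha : UT a A) (hb : UT b B) (n : ℕ) :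
    UT (fun i => Pool.Agent.N681.MK.evo μ (a i) (b i) n) (Pool.Agent.N681.MK.evo μ A B n) :=
  UT.fldn ha' hb' hA hB ha hb n

omit [Group G] [IsTopologicalGroup G] [MeasurableSpace G] [BorelSpace G]
  [SecondCountableTopology G] [CompactSpace G] [TopologicalSpace G] in
lemma UT.uniq (h1 : UT a A) (h2 : UT a B) : A = B := by
  funext x
  have t1 : Tendsto (fun i => a i x) atTop (𝓝 (A x)) := by
    rw [Metric.tendsto_atTop']
    intro ε hε
    obtain ⟨n, hn⟩ := eventually_atTop.1 (h1 ε hε)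
    exact ⟨n, fun i hi => hn i hi.le x⟩
  have t2 : Tendsto (fun i => a i x) atTop (𝓝 (B x)) := by
    rw [Metric.tendsto_atTop']
    intro ε hε
    obtain ⟨n, hn⟩ := eventually_atTop.1 (h2 ε hε)
    exact ⟨n, fun i hi => hn i hi.le x⟩
  exact tendsto_nhds_unique t1 t2

omit [Group G] [IsTopologicalGroup G] [MeasurableSpace G] [BorelSpace G]
  [SecondCountableTopology G] [CompactSpace G] [TopologicalSpace G] in
/-- a sequence which can be approximated by fixed functions converges -/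
lemma UT.exists (h : ∀ ε : ℝ, 0 < ε → ∃ A : G → ℝ, ∀ᶠ i in atTop, ∀ x, |a i x - A x| ≤ ε) :
    ∃ A : G → ℝ, UT a A := by
  have hc : ∀ ε : ℝ, 0 < ε → ∃ N, ∀ i ≥ N, ∀ j ≥ N, ∀ x, |a i x - a j x| ≤ ε := by
    intro ε hε
    obtain ⟨A, hA⟩ := h (ε / 2) (half_pos hε)
    obtain ⟨N, hN⟩ := eventually_atTop.1 hA
    refine ⟨N, fun i hi j hj x => ?_⟩
    have h1 := hN i hi x
    have h2 := hN j hj x
    have e : a i x - a j x = (a i x - A x) - (a j x - A x) := by ring
    rw [e]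
    exact (abs_sub _ _).trans (by linarith)
  have hl : ∀ x, ∃ y, Tendsto (fun i => a i x) atTop (𝓝 y) := by
    intro x
    refine cauchySeq_tendsto_of_complete ?_
    rw [Metric.cauchySeq_iff']
    intro ε hε
    obtain ⟨N, hN⟩ := hc (ε / 2) (half_pos hε)
    refine ⟨N, fun n hn => ?_⟩
    rw [Real.dist_eq]
    exact (hN n hn N le_rfl x).trans_lt (by linarith)
  choose A hA using hl
  refine ⟨A, fun ε hε => ?_⟩
  obtain ⟨N, hN⟩ := hc (ε / 2) (half_pos hε)
  filter_upwards [eventually_ge_atTop N] with i hi x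
  have h1 : Tendsto (fun j => |a i x - a j x|) atTop (𝓝 |a i x - A x|) :=
    (tendsto_const_nhds.sub (hA x)).abs
  have h2 : |a i x - A x| ≤ ε / 2 :=
    le_of_tendsto h1 ((eventually_ge_atTop N).mono fun j hj => hN i hi j hj x)
  linarith

omit [Group G] [IsTopologicalGroup G] [MeasurableSpace G] [BorelSpace G]
  [SecondCountableTopology G] [CompactSpace G] in
lemma UT.cont (ha : ∀ i, Continuous (a i)) (h : UT a A) : Continuous A := by
  have h1 : TendstoUniformly a A atTop := by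
    rw [Metric.tendstoUniformly_iff]
    intro ε hε
    filter_upwards [h ε hε] with i hi x
    rw [dist_comm, Real.dist_eq]
    exact hi x
  exact h1.continuous (Frequently.of_forall ha)

omit [Group G] [IsTopologicalGroup G] [MeasurableSpace G] [BorelSpace G]
  [SecondCountableTopology G] [CompactSpace G] [TopologicalSpace G] in
lemma UT.comp (h : UT a A) {k : ℕ → ℕ} (hk : Tendsto k atTop atTop) : UT (fun i => a (k i)) A :=
  fun ε hε => hk.eventually (h ε hε)

variable {P : (G → ℝ) → ℝ → ℝ → Prop} {T : (G → ℝ) → (G → ℝ) → ℝ → ℝ → ℝ → Prop}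
  {o : G → ℝ} {κ h1 C' : ℝ} {Dm : ℕ} {c C R : ℝ}

/-- **the convergence of the renormalised operator** -/
theorem TanFlow.conv (TF : TanFlow μ P T o κ h1 C' Dm) (hc : 0 < c) (hC : 0 ≤ C) (hR : 0 ≤ R)
    (ho : Continuous o) {f : ℕ → G → ℝ} {l : ℕ → ℕ} (hf : ∀ i, Adm (f i))
    (hl : Tendsto l atTop atTop) {Fk : ℤ → G → ℝ} (hF : ∀ k, Adm (Fk k))
    (hFs : ∀ k, Fk (k + 1) = nrm μ (TT μ (Fk k)))
    (hconv : ∀ k : ℤ, UT (fun i x => nrm μ (TTn μ (f i) ((l i : ℤ) + k).toNat) x) (Fk k))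
    (hex : ∀ hq : ℝ, ∃ k0 : ℕ, ∀ k : ℕ, k0 ≤ k → ∃ Hu : ℝ, ∀ᶠ i in atTop, ∃ h ρ,
      TP μ P c C hq R (f i) (l i - k) h ρ ∧ h (l i - k) ≤ Hu) :
    ∃ Φ : ℤ → G → ℝ, (∀ k, Continuous (Φ k)) ∧ (∀ k, Φ k 1 = 0) ∧
      (∀ k : ℤ, UT (fun i => evo μ (f i) o ((l i : ℤ) + k).toNat) (Φ k)) ∧
      (∀ k : ℤ, UT (fun m : ℕ => evo μ (Fk (-m)) o ((m : ℤ) + k).toNat) (Φ k)) ∧
      (∀ k, Φ (k + 1) = evo μ (Fk k) (Φ k) 1) := by
  obtain ⟨H0, E, c1, c2, c3, c4, hcmp⟩ := tan_cmp (R := R) TF hc hC hR ho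
  obtain ⟨k0, hk0⟩ := hex H0
  -- the convergence of the shifted iterations
  have hneg : ∀ m : ℕ, UT (fun i => nrm μ (TTn μ (f i) (l i - m))) (Fk (-m)) := by
    intro m
    refine UT.congr (hconv (-m)) ?_
    filter_upwards with i
    have e : ((l i : ℤ) + -(m : ℤ)).toNat = l i - m := by omega
    rw [e]
  have hFn : ∀ (k : ℤ) (n : ℕ), nrm μ (TTn μ (Fk k) n) = nrm μ (Fk (k + n)) := by
    intro k n
    induction n with
    | zero =>
      have e : TTn μ (Fk k) 0 = Fk k := rfl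
      rw [e]
      simp
    | succ n ih =>
      have e : TTn μ (Fk k) (n + 1) = TT μ (TTn μ (Fk k) n) := rfl
      have e2 : k + ((n + 1 : ℕ) : ℤ) = (k + n) + 1 := by push_cast; ring
      rw [e, ← nrm_TT_nrm ((hF k).TTn n), ih, nrm_TT_nrm (hF _), e2, hFs]
      have h2 := nrm_scale (μ := μ)
        (inv_pos.2 (((hF (k + n)).TT (μ := μ)).ipos (μ := μ))) (TT μ (Fk (k + n)))
      exact h2.symm
  -- the bare insertions evolved from the theory `Fk (-m)`
  have hcan : ∀ m n : ℕ, UT (fun i => evo μ (TTn μ (f i) (l i - m)) o n) (evo μ (Fk (-m)) o n) := by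
    intro m n
    have h2 := UT.evo (μ := μ) (fun i => ((hf i).TTn (l i - m)).nrm (μ := μ)) (fun _ => ho)
      (hF (-m)) ho (hneg m) (UT.const o) n
    refine UT.congr h2 ?_
    filter_upwards with i
    exact evo_nrm ((hf i).TTn _) _ _
  -- the approximation in the weak coupling region
  have happ : ∀ k : ℕ, k0 ≤ k → ∃ K : ℝ, 0 ≤ K ∧ ∀ n r : ℕ, ∀ᶠ i in atTop, ∀ x,
      |evo μ (f i) o (l i - k) x - evo μ (Fk (-((k + r + n : ℕ) : ℤ))) o (n + r) x| ≤
        K * ((1 / 4) ^ n + 1 / (1 + c * r)) := by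
    intro k hk
    obtain ⟨Hu, hHu⟩ := hk0 k hk
    obtain ⟨δ, hδ, hδF⟩ := exists_lb (hF (-k)).cont (hF (-k)).pos
    obtain ⟨M, hM1, hM⟩ := exists_bd (hF (-k)).cont
    have hM0 : 0 < M := by linarith
    set K1 : ℝ := E * (max Hu 0) ^ Dm * (M / (δ / 2)) with hK1
    have hK10 : 0 ≤ K1 := by positivity
    refine ⟨K1 + 1, by linarith, fun n r => ?_⟩
    set q : ℝ := (1 / 4) ^ n + 1 / (1 + c * r) with hq
    have hr0 : (0 : ℝ) ≤ r := Nat.cast_nonneg r
    have hq0 : 0 < q := by positivity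
    filter_upwards [hHu, hneg k (δ / 2) (half_pos hδ), hneg k 1 one_pos,
      hcan (k + r + n) (n + r) q hq0, hl.eventually (eventually_ge_atTop (k + r + n))] with i g1
      g2 g3 g4 g5 x
    obtain ⟨h, ρ, tp, hh⟩ := g1
    set J := l i - k with hJ
    set s := l i - (k + r + n) with hs
    have hsum : s + n + r = J := by omega
    have hAJ := (hf i).TTn (μ := μ) J
    have hAs := (hf i).TTn (μ := μ) s
    have h3 := hcmp H0 (f i) J h ρ le_rfl (hf i) tp s n r hsum x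
    have hhJ : 0 ≤ h J := by
      have := tp.lo J le_rfl
      linarith
    have h4 : h J ^ Dm ≤ (max Hu 0) ^ Dm :=
      pow_le_pow_left₀ hhJ (hh.trans (le_max_left _ _)) _
    -- the ratio of the weights
    have hI := inv_pos.2 (hAJ.ipos (μ := μ))
    have p1 : 0 < TTn μ (f i) J 1 := hAJ.pos 1
    have px : 0 < TTn μ (f i) J x := hAJ.pos x
    have g21 := g2 x
    have g31 := g3 1
    unfold Pool.Agent.N989.MK.nrm at g21 g31
    have r1 : TTn μ (f i) J 1 / TTn μ (f i) J x ≤ M / (δ / 2) := by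
      rw [div_le_div_iff₀ px (half_pos hδ)]
      have b1 := (abs_lt.1 g21).1
      have b2 := (abs_lt.1 g31).2
      have b3 := hδF x
      have b4 := hM 1
      have b5 := le_abs_self (Fk (-↑k) 1)
      have b6 : δ / 2 ≤ (∫ y, TTn μ (f i) J y ∂μ)⁻¹ * TTn μ (f i) J x := by linarith
      have b7 : (∫ y, TTn μ (f i) J y ∂μ)⁻¹ * TTn μ (f i) J 1 ≤ M := by linarith
      have b8 : (∫ y, TTn μ (f i) J y ∂μ)⁻¹ * (TTn μ (f i) J 1 * (δ / 2)) ≤
          (∫ y, TTn μ (f i) J y ∂μ)⁻¹ * (M * TTn μ (f i) J x) := by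
        have b9 := mul_le_mul_of_nonneg_right b7 (half_pos hδ).le
        have b10 := mul_le_mul_of_nonneg_left b6 hM0.le
        nlinarith
      exact le_of_mul_le_mul_left b8 hI
    -- the difference of the fields
    set u := dTn μ (f i) (fun y => o y * f i y) J with hu
    set v := dTn μ (TTn μ (f i) s) (fun y => o y * TTn μ (f i) s y) (n + r) with hv
    have e1 : evo μ (f i) o J x - evo μ (TTn μ (f i) s) o (n + r) x =
        ((u x - v x) / TTn μ (f i) J 1 - (u 1 - v 1) * TTn μ (f i) J x / TTn μ (f i) J 1 ^ 2) *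
          (TTn μ (f i) J 1 / TTn μ (f i) J x) := by
      have e2 : TTn μ (TTn μ (f i) s) (n + r) = TTn μ (f i) J := by
        rw [← TTn_add]
        congr 1
        omega
      unfold evo fld
      rw [e2, ← hu, ← hv]
      field_simp
      ring
    have h5 : |evo μ (f i) o J x - evo μ (TTn μ (f i) s) o (n + r) x| ≤ K1 * q := by
      rw [e1, abs_mul, abs_of_pos (div_pos p1 px)]
      have h6 := mul_le_mul h3 r1 (div_pos p1 px).le (by positivity)
      refine h6.trans ?_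
      have h7 : E * h J ^ Dm * q * (M / (δ / 2)) ≤ E * (max Hu 0) ^ Dm * q * (M / (δ / 2)) := by
        have h8 := mul_le_mul_of_nonneg_left h4 c4
        have h9 : 0 ≤ q * (M / (δ / 2)) := by positivity
        have h10 := mul_le_mul_of_nonneg_right h8 h9
        linarith
      refine h7.trans (le_of_eq ?_)
      rw [hK1]
      ring
    have h6 := (g4 x).le
    have e3 : evo μ (f i) o J x - evo μ (Fk (-((k + r + n : ℕ) : ℤ))) o (n + r) x =
        (evo μ (f i) o J x - evo μ (TTn μ (f i) s) o (n + r) x) +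
        (evo μ (TTn μ (f i) s) o (n + r) x -
          evo μ (Fk (-((k + r + n : ℕ) : ℤ))) o (n + r) x) := by ring
    rw [e3]
    refine (abs_add_le _ _).trans ?_
    linarith
  -- the small numbers
  have hsmall : ∀ ε : ℝ, 0 < ε → ∃ m0 : ℕ, ∀ m : ℕ, m0 ≤ m →
      (1 / 4 : ℝ) ^ (m / 2) + 1 / (1 + c * ((m - m / 2 : ℕ) : ℝ)) ≤ ε := by
    intro ε hε
    have t1 : Tendsto (fun n : ℕ => (1 / 4 : ℝ) ^ n) atTop (𝓝 0) :=
      tendsto_pow_atTop_nhds_zero_of_lt_one (by norm_num) (by norm_num)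
    obtain ⟨n1, hn1⟩ := eventually_atTop.1 (t1.eventually (gt_mem_nhds (half_pos hε)))
    obtain ⟨n2, hn2⟩ := exists_nat_gt (2 / (ε * c))
    refine ⟨2 * n1 + 2 * n2 + 2, fun m hm => ?_⟩
    have g1 := hn1 (m / 2) (by omega)
    have g2 : ((n2 : ℕ) : ℝ) ≤ ((m - m / 2 : ℕ) : ℝ) := by
      exact_mod_cast (by omega : n2 ≤ m - m / 2)
    have g3 : 1 / (1 + c * ((m - m / 2 : ℕ) : ℝ)) ≤ ε / 2 := by
      rw [div_le_div_iff₀ (by positivity) (by norm_num)]
      rw [div_lt_iff₀ (by positivity)] at hn2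
      have g4 : (n2 : ℝ) * (ε * c) ≤ ((m - m / 2 : ℕ) : ℝ) * (ε * c) :=
        mul_le_mul_of_nonneg_right g2 (by positivity)
      nlinarith
    linarith
  -- the limit in the weak coupling region
  have hlim1 : ∀ k : ℕ, k0 ≤ k → ∃ Ψ : G → ℝ, UT (fun i => evo μ (f i) o (l i - k)) Ψ := by
    intro k hk
    obtain ⟨K, hK, hKa⟩ := happ k hk
    refine UT.exists fun ε hε => ?_
    obtain ⟨m0, hm0⟩ := hsmall (ε / (K + 1)) (by positivity)
    refine ⟨evo μ (Fk (-((k + (m0 - m0 / 2) + m0 / 2 : ℕ) : ℤ))) o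
      (m0 / 2 + (m0 - m0 / 2)), ?_⟩
    filter_upwards [hKa (m0 / 2) (m0 - m0 / 2)] with i hi x
    refine (hi x).trans ?_
    have h2 := mul_le_mul_of_nonneg_left (hm0 m0 le_rfl) hK
    have h3 : K * (ε / (K + 1)) ≤ ε := by
      rw [mul_div_assoc', div_le_iff₀ (by positivity)]
      nlinarith
    linarith
  have hlim2 : ∀ k : ℕ, k0 ≤ k → ∀ Ψ : G → ℝ, UT (fun i => evo μ (f i) o (l i - k)) Ψ →
      UT (fun m : ℕ => evo μ (Fk (-m)) o (m - k)) Ψ := by
    intro k hk Ψ hΨ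
    obtain ⟨K, hK, hKa⟩ := happ k hk
    intro ε hε
    obtain ⟨m0, hm0⟩ := hsmall (ε / (2 * (K + 1))) (by positivity)
    filter_upwards [eventually_ge_atTop (k + m0)] with m hm x
    set m' := m - k with hm'
    have hsum : k + (m' - m' / 2) + m' / 2 = m := by omega
    have hsum2 : m' / 2 + (m' - m' / 2) = m' := by omega
    obtain ⟨i, hi1, hi2⟩ := ((hKa (m' / 2) (m' - m' / 2)).and (hΨ (ε / 2) (half_pos hε))).exists
    have h2 := hi1 x
    have h3 := hi2 x
    rw [hsum, hsum2] at h2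
    have h4 := mul_le_mul_of_nonneg_left (hm0 m' (by omega)) hK
    have h5 : K * (ε / (2 * (K + 1))) < ε / 2 := by
      rw [mul_div_assoc', div_lt_div_iff₀ (by positivity) (by norm_num)]
      nlinarith
    have e : evo μ (Fk (-(m : ℤ))) o m' x - Ψ x =
        (evo μ (f i) o (l i - k) x - Ψ x) -
          (evo μ (f i) o (l i - k) x - evo μ (Fk (-(m : ℤ))) o m' x) := by ring
    rw [e]
    refine (abs_sub _ _).trans_lt ?_
    linarith
  -- all scales
  have hall : ∀ k : ℤ, ∃ Ψ : G → ℝ, Continuous Ψ ∧ Ψ 1 = 0 ∧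
      UT (fun i => evo μ (f i) o ((l i : ℤ) + k).toNat) Ψ ∧
      UT (fun m : ℕ => evo μ (Fk (-m)) o ((m : ℤ) + k).toNat) Ψ := by
    intro k
    set k' : ℕ := max k0 (-k).toNat with hk'
    have hk'0 : k0 ≤ k' := le_max_left _ _
    have hk'1 : (-k).toNat ≤ k' := le_max_right _ _
    obtain ⟨Ψ, hΨ⟩ := hlim1 k' hk'0
    have hΨ2 := hlim2 k' hk'0 Ψ hΨ
    have cΨ : Continuous Ψ := UT.cont (fun i => cont_evo (hf i) ho _) hΨ
    obtain ⟨n, hn⟩ : ∃ n : ℕ, k = -(k' : ℤ) + n := ⟨(k + k').toNat, by omega⟩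
    refine ⟨evo μ (Fk (-k')) Ψ n, cont_evo (hF _) cΨ n, evo_one _ _ _, ?_, ?_⟩
    · have h2 := UT.evo (μ := μ) (fun i => ((hf i).TTn (l i - k')).nrm (μ := μ))
        (fun i => cont_evo (μ := μ) (hf i) ho (l i - k')) (hF (-k')) cΨ (hneg k') hΨ n
      refine UT.congr h2 ?_
      filter_upwards [hl.eventually (eventually_ge_atTop k')] with i hi
      rw [evo_nrm ((hf i).TTn _), ← evo_add (hf i) ho]
      congr 1
      omega
    · have hA : ∀ m : ℕ, Adm (nrm μ (TTn μ (Fk (-m)) (m - k'))) := fun m =>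
        ((hF (-m)).TTn (m - k')).nrm
      have hnF : nrm μ (Fk (-k')) = Fk (-k') := by
        have h3 : Fk (-(k' : ℤ)) = nrm μ (TT μ (Fk (-(k' : ℤ) - 1))) := by
          have := hFs (-(k' : ℤ) - 1)
          rwa [sub_add_cancel] at this
        rw [h3]
        exact nrm_scale (μ := μ)
          (inv_pos.2 (((hF (-(k' : ℤ) - 1)).TT (μ := μ)).ipos (μ := μ))) (TT μ (Fk (-(k' : ℤ) - 1)))
      have hAc : UT (fun m : ℕ => nrm μ (TTn μ (Fk (-m)) (m - k'))) (Fk (-k')) := by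
        refine UT.congr (UT.const (Fk (-k'))) ?_
        filter_upwards [eventually_ge_atTop k'] with m hm
        rw [hFn, ← hnF]
        have e : (-(m : ℤ)) + ((m - k' : ℕ) : ℤ) = -(k' : ℤ) := by omega
        rw [e, hnF]
      have h2 := UT.evo (μ := μ) hA (fun m : ℕ => cont_evo (μ := μ) (hF (-m)) ho (m - k'))
        (hF (-k')) cΨ hAc hΨ2 n
      refine UT.congr h2 ?_
      filter_upwards [eventually_ge_atTop k'] with m hm
      rw [evo_nrm ((hF (-m)).TTn _), ← evo_add (hF (-m)) ho]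
      congr 1
      omega
  choose Φ hΦ1 hΦ2 hΦ3 hΦ4 using hall
  refine ⟨Φ, hΦ1, hΦ2, hΦ3, hΦ4, fun k => ?_⟩
  have h2 := UT.evo (μ := μ) (fun i => ((hf i).TTn ((l i : ℤ) + k).toNat).nrm (μ := μ))
    (fun i => cont_evo (μ := μ) (hf i) ho ((l i : ℤ) + k).toNat) (hF k) (hΦ1 k) (hconv k) (hΦ3 k) 1
  refine UT.uniq (hΦ3 (k + 1)) (UT.congr h2 ?_)
  filter_upwards [hl.eventually (eventually_ge_atTop (-k).toNat)] with i hi
  rw [evo_nrm ((hf i).TTn _), ← evo_add (hf i) ho]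
  congr 1
  omega

end

end Pool.Agent.N681.MK
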