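import Mathlib
import Pool.Agent.N681.MK.Tan4

/-!
# The renormalised operator: the trajectories of a convergent sequence of theories, the limit of
the near form, universality
-/

open MeasureTheory Pool.Agent.N991.MK Pool.Agent.N989.MK Filter
open scoped Topology

namespace Pool.Agent.N681.MK

set_option linter.unusedSectionVars false

noncomputable section

variable {G : Type*} [Group G] [TopologicalSpace G] [IsTopologicalGroup G] [CompactSpace G]
  [MeasurableSpace G] [BorelSpace G] [SecondCountableTopology G]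
  {μ : Measure G} [IsProbabilityMeasure μ] [μ.IsHaarMeasure] [μ.IsMulRightInvariant]
  [μ.IsInvInvariant]

/-! ### Linearity -/

lemma fld_smul {G : Type*} [Group G] (f g : G → ℝ) (s : ℝ) :
    fld f (fun x => s * g x) = fun x => s * fld f g x := by
  funext x
  unfold fld
  ring

lemma dTn_smul (f g : G → ℝ) (s : ℝ) : ∀ n, dTn μ f (fun x => s * g x) n =
    fun x => s * dTn μ f g n x
  | 0 => rfl
  | n + 1 => by
    change dTT μ (TTn μ f n) (dTn μ f (fun x => s * g x) n) =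
      fun x => s * dTT μ (TTn μ f n) (dTn μ f g n) x
    rw [dTn_smul f g s n]
    have h := dTT_scale (μ := μ) 1 s (TTn μ f n) (dTn μ f g n)
    simp only [one_mul, one_pow] at h
    exact h

lemma evo_smul (f φ : G → ℝ) (s : ℝ) (n : ℕ) :
    evo μ f (fun x => s * φ x) n = fun x => s * evo μ f φ n x := by
  unfold evo
  have e : (fun x => s * φ x * f x) = fun x => s * (φ x * f x) := by
    funext x
    ring
  rw [e, dTn_smul, fld_smul]

/-! ### The trajectories -/

variable {χ : G → ℝ} {n : ℕ} {D : ED G n}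
variable {Zb : ℝ → G → ℝ} {P : (G → ℝ) → ℝ → ℝ → Prop} {c h0 C A R : ℝ}

lemma UT.WW {f : ℕ → G → ℝ} {F : G → ℝ} (ho : Obs μ χ) (hf : ∀ i, Continuous (f i)) (hF : Adm F)
    (h : UT f F) : Tendsto (fun i => WW μ χ (f i)) atTop (𝓝 (WW μ χ F)) := by
  have h1 := UT.mul hF.cont ho.cont h (UT.const χ)
  have h2 := UT.int (μ := μ) (fun i => (hf i).mul ho.cont) (hF.cont.mul ho.cont) h1
  have h3 := UT.int (μ := μ) hf hF.cont h
  exact h2.div h3 (hF.ipos (μ := μ)).ne'

lemma TP_weaken {hq hq' : ℝ} (hh : hq' ≤ hq) {f : G → ℝ} {J : ℕ} {h ρ : ℕ → ℝ}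
    (t : TP μ P c C hq R f J h ρ) : TP μ P c C hq' R f J h ρ :=
  ⟨t.p, fun i hi => hh.trans (t.lo i hi), t.t.weaken hh, t.r, t.r0⟩

/-- the trajectories of a convergent sequence of theories -/
theorem hex_of_flow (F : Flow μ χ D Zb P c h0 C A R) (ho : Obs μ χ) (Fm : Fam μ χ D Zb) {m : ℕ}
    (hg : Gen D m 1) {β : ℕ → ℝ} (hβ : ∀ i, 0 < β i) {l : ℕ → ℕ} (hl : Tendsto l atTop atTop)
    {Fk : ℤ → G → ℝ} (hF : ∀ k, Adm (Fk k))
    (hconv : ∀ k : ℤ, UT (fun i x => nrm μ (TTn μ (Zb (β i)) ((l i : ℤ) + k).toNat) x) (Fk k))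
    (hW1 : Tendsto (fun j : ℕ => WW μ χ (Fk (-j))) atTop (𝓝 1)) (hW : ∀ k, WW μ χ (Fk k) < 1) :
    ∀ hq : ℝ, ∃ k0 : ℕ, ∀ k : ℕ, k0 ≤ k → ∃ Hu : ℝ, ∀ᶠ i in atTop, ∃ h ρ,
      TP μ P c C hq R (Zb (β i)) (l i - k) h ρ ∧ h (l i - k) ≤ Hu := by
  intro hq
  have hA := F.A_nn
  have hC := F.C_nn
  have hR := F.R_nn
  set hq' := max (max hq (C + 1)) h0 with hhq
  have q1 : h0 ≤ hq' := le_max_right _ _
  have q2 : hq ≤ hq' := (le_max_left _ _).trans (le_max_left _ _)
  have q3 : C + 1 ≤ hq' := (le_max_right _ _).trans (le_max_left _ _)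
  obtain ⟨H, u1, hu1, hqH, hex⟩ := extract F ho hg Fm.adm q1
  have hu1' : max u1 0 < 1 := max_lt hu1 one_pos
  obtain ⟨k0, hk0⟩ := eventually_atTop.1 (hW1.eventually (lt_mem_nhds hu1'))
  refine ⟨k0, fun k hk => ?_⟩
  set w := WW μ χ (Fk (-k)) with hw
  have hwu : max u1 0 < w := hk0 k hk
  have hw1 : w < 1 := hW _
  have hw0 : 0 < w := (le_max_right _ _).trans_lt hwu
  have hwu1 : u1 < w := (le_max_left _ _).trans_lt hwu
  have htW : Tendsto (fun i => WW μ χ (TTn μ (Zb (β i)) (l i - k))) atTop (𝓝 w) := by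
    have h2 := UT.WW ho (fun i => (((Fm.adm (β i)).TTn (μ := μ) ((l i : ℤ) + -k).toNat).nrm
      (μ := μ)).cont) (hF (-k)) (hconv (-k))
    refine h2.congr fun i => ?_
    have e : ((l i : ℤ) + -(k : ℤ)).toNat = l i - k := by omega
    rw [e]
    exact WW_nrm ((Fm.adm (β i)).TTn (l i - k))
  obtain ⟨n0, hn0⟩ := Fm.g.far ho hg (half_pos hw0) H
  have hlk : Tendsto (fun i => l i - k) atTop atTop := by
    refine tendsto_atTop.2 fun b => ?_
    filter_upwards [hl.eventually (eventually_ge_atTop (b + k))] with i hi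
    omega
  refine ⟨(A + C * (R + 3)) * (2 / (1 - w)), ?_⟩
  filter_upwards [htW.eventually (lt_mem_nhds hwu1),
    htW.eventually (gt_mem_nhds (show w < 1 - (1 - w) / 2 by linarith)),
    htW.eventually (lt_mem_nhds (show w / 2 < w by linarith)),
    hlk.eventually (eventually_ge_atTop n0)] with i g1 g2 g3 g4
  have hβH : H ≤ β i := by
    by_contra hcon
    push Not at hcon
    have := hn0 (l i - k) g4 (β i) (hβ i).le hcon.le
    linarith
  obtain ⟨h, ρ, tp⟩ := hex (β i) hβH (l i - k) g1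
  refine ⟨h, ρ, TP_weaken q2 tp, ?_⟩
  set J := l i - k with hJ
  have hlo := tp.lo J le_rfl
  have hJ0 : 0 < h J := by linarith
  have h3 := F.wil _ _ _ (tp.p J le_rfl) (q1.trans hlo)
  have h4 := tp.t.bd (show 0 < hq' by linarith) hC (by linarith) tp.r0 tp.r J le_rfl
  have h5 : 1 / h J ≤ 1 := by
    rw [div_le_one hJ0]
    linarith
  have h6 : C * (ρ J + 1 / h J) ≤ C * (R + 3) := mul_le_mul_of_nonneg_left (by linarith) hC
  have h7 : 1 - WW μ χ (TTn μ (Zb (β i)) J) ≤ (A + C * (R + 3)) / h J := by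
    have h8 := (abs_le.1 h3).2
    have h9 : C * (ρ J + 1 / h J) / h J ≤ C * (R + 3) / h J :=
      div_le_div_of_nonneg_right h6 hJ0.le
    rw [add_div]
    linarith
  rw [le_div_iff₀ hJ0] at h7
  rw [mul_div_assoc', le_div_iff₀ (by linarith)]
  have h8 : (1 - w) / 2 * h J ≤ (1 - WW μ χ (TTn μ (Zb (β i)) J)) * h J :=
    mul_le_mul_of_nonneg_right (by linarith) hJ0.le
  linarith

/-! ### The near form in the limit -/

variable {T : (G → ℝ) → (G → ℝ) → ℝ → ℝ → ℝ → Prop} {o : G → ℝ} {κ h1 C' : ℝ} {Dm : ℕ}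

/-- **the data of the renormalised operator at the scale `l i - k`** -/
theorem TanFlow.data (TF : TanFlow μ P T o κ h1 C' Dm) (hc : 0 < c) (hC : 0 ≤ C) (hR : 0 ≤ R)
    {f : ℕ → G → ℝ} {l : ℕ → ℕ} (hl : Tendsto l atTop atTop)
    (hex : ∀ hq : ℝ, ∃ k0 : ℕ, ∀ k : ℕ, k0 ≤ k → ∃ Hu : ℝ, ∀ᶠ i in atTop, ∃ h ρ,
      TP μ P c C hq R (f i) (l i - k) h ρ ∧ h (l i - k) ≤ Hu) :
    ∃ (k1 : ℕ) (B : ℝ), 0 ≤ B ∧ ∀ k : ℕ, k1 ≤ k → ∀ᶠ i in atTop, ∃ h ρ a e : ℝ,
      P (TTn μ (f i) (l i - k)) h ρ ∧ 0 ≤ ρ ∧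
      T (TTn μ (f i) (l i - k)) (dTn μ (f i) (fun x => o x * f i x) (l i - k)) h a e ∧
      |a - κ| ≤ B / k ∧ e ≤ B / k ∧ 1 ≤ h ∧ h1 ≤ h ∧ |h - c * k| ≤ B + c / 2 * k ∧
      ρ ≤ B / k := by
  obtain ⟨H0, B, b1, b2, b3, b4, b5, b6⟩ := tan_flow (R := R) TF hc hC hR
  set B1 := 4 / 3 * C * (R + 2) with hB1
  have hB10 : 0 ≤ B1 := by positivity
  set hq := max (max H0 (C + C * (R + 3))) (max (2 * (C + 4 / 3 * C ^ 2) / c) B1) with hhq
  have q1 : H0 ≤ hq := (le_max_left _ _).trans (le_max_left _ _)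
  have q2 : C + C * (R + 3) ≤ hq := (le_max_right _ _).trans (le_max_left _ _)
  have q3 : 2 * (C + 4 / 3 * C ^ 2) / c ≤ hq := (le_max_left _ _).trans (le_max_right _ _)
  have q4 : B1 ≤ hq := (le_max_right _ _).trans (le_max_right _ _)
  have hq1 : 1 ≤ hq := b1.trans q1
  have hq0 : 0 < hq := by linarith
  have hCR : 0 ≤ C * (R + 3) := by positivity
  obtain ⟨k0, hk0⟩ := hex hq
  obtain ⟨Hu, hHu⟩ := hk0 k0 le_rfl
  have hC' := TF.C_nn
  set N := |κ| + C' with hN
  have hN0 : 0 ≤ N := by positivity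
  have hcH : 2 * (C + 4 / 3 * C ^ 2) ≤ c * hq := by
    rw [div_le_iff₀ hc] at q3
    linarith
  set B2 : ℝ := 1 + 2 * B1 + |Hu| + hq + 2 * c * k0 + 4 * (B * N + 4 * C) / c with hB2
  have hk0' : (0 : ℝ) ≤ k0 := Nat.cast_nonneg k0
  have hB20 : 0 ≤ B2 := by positivity
  refine ⟨2 * k0 + 1 + ⌈4 * B1 / c⌉₊, B2 + 1, by positivity, fun k hk => ?_⟩
  have hkp : (1 : ℝ) ≤ k := by exact_mod_cast (by omega : 1 ≤ k)
  have hkk : (2 : ℝ) * k0 ≤ k := by exact_mod_cast (by omega : 2 * k0 ≤ k)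
  have hkB : 4 * B1 / c ≤ k := by
    refine (Nat.le_ceil _).trans ?_
    exact_mod_cast (by omega : ⌈4 * B1 / c⌉₊ ≤ k)
  rw [div_le_iff₀ hc] at hkB
  have hpow : Tendsto (fun i => (1 / 4 : ℝ) ^ (l i - k) * (C' + R)) atTop (𝓝 (0 * (C' + R))) := by
    refine Tendsto.mul_const _ ?_
    refine (tendsto_pow_atTop_nhds_zero_of_lt_one (by norm_num) (by norm_num)).comp ?_
    refine tendsto_atTop.2 fun b => ?_
    filter_upwards [hl.eventually (eventually_ge_atTop (b + k))] with i hi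
    omega
  rw [zero_mul] at hpow
  have hk0p : (0 : ℝ) < k := by linarith
  filter_upwards [hHu, hl.eventually (eventually_ge_atTop k),
    hpow.eventually (gt_mem_nhds (show (0 : ℝ) < 1 / k by positivity))] with i g1 g2 g3
  obtain ⟨h, ρ, tp, hh⟩ := g1
  set J := l i - k0 with hJ
  set s := l i - k with hs
  have hsJ : s + (k - k0) = J := by omega
  have i0 : T (f i) (fun x => o x * f i x) (h 0) κ C' :=
    TF.init _ _ _ (tp.p 0 (by omega)) ((b5.trans q1).trans (tp.lo 0 (by omega)))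
  obtain ⟨a, e, t1, t2, t3, t4⟩ := b6 hq _ _ J h ρ κ C' q1 tp i0 s (by omega)
  have hlo := tp.lo s (by omega)
  have hs0 : 0 < h s := by linarith
  -- the coupling
  have k1 := tp.t.tele2 hq0 hC (by linarith) tp.r0 tp.r s (k - k0) hsJ.le
  rw [hsJ] at k1
  have hcast : ((k - k0 : ℕ) : ℝ) = (k : ℝ) - k0 := by
    rw [Nat.cast_sub (by omega)]
  rw [hcast] at k1
  have k2 : (C + 4 / 3 * C ^ 2) / hq ≤ c / 2 := by
    rw [div_le_iff₀ hq0]
    linarith
  have hkk0 : 0 ≤ (k : ℝ) - k0 := by linarith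
  have k3 : (C + 4 / 3 * C ^ 2) / hq * ((k : ℝ) - k0) ≤ c / 2 * ((k : ℝ) - k0) :=
    mul_le_mul_of_nonneg_right k2 hkk0
  have k4 := abs_le.1 k1
  have hJlo := tp.lo J le_rfl
  have hHu1 := le_abs_self Hu
  have k5 : c / 4 * k ≤ h s := by
    have e1 : c / 2 * ((k : ℝ) - k0) ≤ h s - hq + B1 := by linarith [k4.2]
    have e2 : c / 2 * ((k : ℝ) / 2) ≤ c / 2 * ((k : ℝ) - k0) :=
      mul_le_mul_of_nonneg_left (by linarith) (by positivity)
    linarith
  have k6 : |h s - c * k| ≤ B2 + 1 + c / 2 * k := by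
    have e1 : 0 ≤ 4 * (B * N + 4 * C) / c := by positivity
    rw [abs_le]
    constructor
    · have := k4.2
      nlinarith
    · have := k4.1
      nlinarith
  have k7 : ∀ y : ℝ, 0 ≤ y → y ≤ B * N + 4 * C → y / h s ≤ B2 / k := by
    intro y hy hyB
    rw [div_le_div_iff₀ hs0 hk0p]
    have e1 : 4 * (B * N + 4 * C) / c * (c / 4 * k) = (B * N + 4 * C) * k := by
      field_simp
    have e2 : 4 * (B * N + 4 * C) / c ≤ B2 := by
      rw [hB2]
      have := abs_nonneg Hu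
      have : 0 ≤ 2 * c * (k0 : ℝ) := by positivity
      linarith
    have e3 : (B * N + 4 * C) * k ≤ 4 * (B * N + 4 * C) / c * h s := by
      rw [← e1]
      exact mul_le_mul_of_nonneg_left k5 (by positivity)
    have e4 : 4 * (B * N + 4 * C) / c * h s ≤ B2 * h s := mul_le_mul_of_nonneg_right e2 hs0.le
    have e5 : y * k ≤ (B * N + 4 * C) * k := mul_le_mul_of_nonneg_right hyB hk0p.le
    linarith
  have hBN0 : 0 ≤ B * N := by positivity
  have k8 := k7 (B * N) hBN0 (by linarith)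
  have k9 := k7 (4 * C) (by positivity) (by linarith)
  have e10 : (B2 + 1) / (k : ℝ) = B2 / k + 1 / k := add_div _ _ _
  have hp4 : (0 : ℝ) ≤ (1 / 4) ^ s := by positivity
  have g4 : (1 / 4 : ℝ) ^ s * C' ≤ (1 / 4 : ℝ) ^ s * (C' + R) :=
    mul_le_mul_of_nonneg_left (by linarith) hp4
  have g5 : (1 / 4 : ℝ) ^ s * R ≤ (1 / 4 : ℝ) ^ s * (C' + R) :=
    mul_le_mul_of_nonneg_left (by linarith) hp4
  have hra := tp.t.ra2 hc.le hC hq0 (by linarith) (by linarith) hq1 tp.r0 tp.r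
    (by linarith [tp.lo J le_rfl] : 0 < h J) s (by omega)
  have h1k : (0 : ℝ) ≤ 1 / k := by positivity
  refine ⟨h s, ρ s, a, e, tp.p s (by omega), tp.t.nonneg tp.r0 s (by omega), t1, ?_, ?_,
    hq1.trans hlo, (b5.trans q1).trans hlo, k6, ?_⟩
  · rw [e10]
    exact (t2.trans k8).trans (by linarith)
  · rw [e10]
    have : B * (|κ| + C') / h s = B * N / h s := rfl
    linarith
  · rw [e10]
    linarith

/-- **the near form of the limit** -/
theorem TanFlow.near_limit (TF : TanFlow μ P T o κ h1 C' Dm) (hc : 0 < c) (hC : 0 ≤ C)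
    (hR : 0 ≤ R) {f : ℕ → G → ℝ} {l : ℕ → ℕ} (hl : Tendsto l atTop atTop)
    (hex : ∀ hq : ℝ, ∃ k0 : ℕ, ∀ k : ℕ, k0 ≤ k → ∃ Hu : ℝ, ∀ᶠ i in atTop, ∃ h ρ,
      TP μ P c C hq R (f i) (l i - k) h ρ ∧ h (l i - k) ≤ Hu)
    {N : G → Prop} {q : G → ℝ}
    (hnear : ∀ f g h ρ a e, P f h ρ → T f g h a e → h1 ≤ h → ∀ x, N x →
      |fld f g x + a / 2 * q x| ≤ C' * e * q x ^ 2)
    {Φ : ℤ → G → ℝ}
    (hΦ : ∀ k : ℤ, UT (fun i => evo μ (f i) o ((l i : ℤ) + k).toNat) (Φ k)) :
    ∃ (k1 : ℕ) (B : ℝ), 0 ≤ B ∧ ∀ k : ℕ, k1 ≤ k → ∃ a : ℝ, |a - κ| ≤ B / k ∧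
      ∀ x, N x → |Φ (-k) x + a / 2 * q x| ≤ B / k * q x ^ 2 := by
  obtain ⟨k1, B, hB, hd⟩ := TF.data hc hC hR hl hex
  have hC' := TF.C_nn
  refine ⟨k1 + 1, B * (C' + 1), by positivity, fun k hk => ?_⟩
  have hkp : (0 : ℝ) < k := by exact_mod_cast (by omega : 0 < k)
  have hd' := hd k (by omega)
  obtain ⟨N1, hN1⟩ := eventually_atTop.1 hd'
  choose! h ρ a e d1 d2 d3 d4 d5 d6 d7 d8 d9 using hN1
  -- a convergent subsequence of the coefficients
  have hmem : ∀ i : ℕ, a (N1 + i) ∈ Set.Icc (κ - B / k) (κ + B / k) := by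
    intro i
    have := abs_le.1 (d4 (N1 + i) (by omega))
    exact ⟨by linarith [this.1], by linarith [this.2]⟩
  obtain ⟨a', ha', φ, hφ, hlim⟩ := isCompact_Icc.tendsto_subseq hmem
  refine ⟨a', ?_, fun x hx => ?_⟩
  · have h3 : |a' - κ| ≤ B / k := by
      rw [abs_le]
      exact ⟨by linarith [ha'.1], by linarith [ha'.2]⟩
    refine h3.trans (div_le_div_of_nonneg_right ?_ hkp.le)
    nlinarith
  · have hU : Tendsto (fun i => evo μ (f i) o ((l i : ℤ) + -k).toNat x) atTop (𝓝 (Φ (-k) x)) := by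
      rw [Metric.tendsto_atTop']
      intro ε hε
      obtain ⟨n, hn⟩ := eventually_atTop.1 (hΦ (-k) ε hε)
      exact ⟨n, fun i hi => hn i hi.le x⟩
    have hsub : Tendsto (fun i => N1 + φ i) atTop atTop :=
      tendsto_atTop_mono (fun i => Nat.le_add_left _ _) hφ.tendsto_atTop
    have hU2 := hU.comp hsub
    have hT : Tendsto (fun i => |evo μ (f (N1 + φ i)) o ((l (N1 + φ i) : ℤ) + -k).toNat x +
        a (N1 + φ i) / 2 * q x|) atTop (𝓝 |Φ (-k) x + a' / 2 * q x|) :=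
      (hU2.add ((hlim.div_const 2).mul_const (q x))).abs
    refine le_of_tendsto hT (Eventually.of_forall fun i => ?_)
    have h4 := hnear _ _ _ _ _ _ (d1 (N1 + φ i) (by omega)) (d3 (N1 + φ i) (by omega))
      (d7 (N1 + φ i) (by omega)) x hx
    have e1 : ((l (N1 + φ i) : ℤ) + -(k : ℤ)).toNat = l (N1 + φ i) - k := by omega
    rw [e1]
    refine h4.trans ?_
    have h5 := d5 (N1 + φ i) (by omega)
    have h6 : 0 ≤ q x ^ 2 := sq_nonneg _
    have h7 : C' * e (N1 + φ i) ≤ B * (C' + 1) / k := by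
      have h8 := mul_le_mul_of_nonneg_left h5 hC'
      have h9 : B * (C' + 1) / k = C' * (B / k) + B / k := by ring
      have h10 : 0 ≤ B / (k : ℝ) := by positivity
      linarith
    exact mul_le_mul_of_nonneg_right h7 h6

/-! ### Universality -/

/-- **the universality of the renormalised operator** -/
theorem TanFlow.univ (TF : TanFlow μ P T o κ h1 C' Dm) {o' : G → ℝ} {κ' s C'' : ℝ} {Dm' : ℕ}
    (TF' : TanFlow μ P T o' κ' h1 C'' Dm') (hκ : κ' = s * κ)
    (hsm : ∀ f g h a e (s : ℝ), T f g h a e → T f (fun x => s * g x) h (s * a) (|s| * e))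
    (hc : 0 < c) (hC : 0 ≤ C) (hR : 0 ≤ R)
    (ho : Continuous o) (ho' : Continuous o') {f : ℕ → G → ℝ} {l : ℕ → ℕ} (hf : ∀ i, Adm (f i))
    (hl : Tendsto l atTop atTop) {Fk : ℤ → G → ℝ} (hF : ∀ k, Adm (Fk k))
    (hconv : ∀ k : ℤ, UT (fun i x => nrm μ (TTn μ (f i) ((l i : ℤ) + k).toNat) x) (Fk k))
    (hex : ∀ hq : ℝ, ∃ k0 : ℕ, ∀ k : ℕ, k0 ≤ k → ∃ Hu : ℝ, ∀ᶠ i in atTop, ∃ h ρ,
      TP μ P c C hq R (f i) (l i - k) h ρ ∧ h (l i - k) ≤ Hu)
    {Φ Φ' : ℤ → G → ℝ}
    (hΦ : ∀ k : ℤ, UT (fun i => evo μ (f i) o ((l i : ℤ) + k).toNat) (Φ k))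
    (hΦ' : ∀ k : ℤ, UT (fun i => evo μ (f i) o' ((l i : ℤ) + k).toNat) (Φ' k)) :
    ∀ k x, Φ' k x = s * Φ k x := by
  obtain ⟨H0, B, b1, b2, b3, b4, b5, b6⟩ := tan_flow (R := R + 2) TF hc hC (by linarith)
  have hC' := TF.C_nn
  have hC'' := TF'.C_nn
  obtain ⟨k0, hk0⟩ := hex H0
  set L0 : ℝ := C'' + |s| * C' with hL0
  have hL00 : 0 ≤ L0 := by positivity
  -- the weak coupling region
  have key : ∀ k : ℕ, k0 ≤ k → Φ' (-k) = fun x => s * Φ (-k) x := by
    intro k hk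
    obtain ⟨Hu, hHu⟩ := hk0 k hk
    obtain ⟨δ, hδ, hδF⟩ := exists_lb (hF (-k)).cont (hF (-k)).pos
    obtain ⟨M, hM1, hM⟩ := exists_bd (hF (-k)).cont
    have hM0 : 0 < M := by linarith
    have hneg : UT (fun i => nrm μ (TTn μ (f i) (l i - k))) (Fk (-k)) := by
      refine UT.congr (hconv (-k)) ?_
      filter_upwards with i
      have e : ((l i : ℤ) + -(k : ℤ)).toNat = l i - k := by omega
      rw [e]
    set K1 : ℝ := C' * (max Hu 0) ^ Dm * (4 * (8 * (B + 1) * L0)) * (M / (δ / 2)) with hK1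
    have hK10 : 0 ≤ K1 := by positivity
    -- the bound of the difference
    have hd : ∀ᶠ i in atTop, ∀ x, |evo μ (f i) o' (l i - k) x - s * evo μ (f i) o (l i - k) x| ≤
        K1 * ((1 / 4) ^ ((l i - k) / 2) + 1 / (1 + c * ((l i - k - (l i - k) / 2 : ℕ) : ℝ))) := by
      filter_upwards [hHu, hneg (δ / 2) (half_pos hδ), hneg 1 one_pos] with i g1 g2 g3 x
      obtain ⟨h, ρ, tp, hh⟩ := g1
      set J := l i - k with hJ
      set t := J / 2 with ht
      have htJ : t + (J - t) = J := by omega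
      have hq0 : 0 < H0 := by linarith
      have hlo : ∀ i ≤ J, 0 < h i ∧ B ≤ h i ∧ 1 ≤ h i := fun i hi => by
        have := tp.lo i hi
        exact ⟨by linarith, by linarith, by linarith⟩
      have tp' : TP μ P c C H0 (R + 2) (f i) J h ρ := ⟨tp.p, tp.lo, tp.t, by linarith [tp.r], tp.r0⟩
      have i0 := TF.init _ _ _ (tp.p 0 (by omega)) (b5.trans (tp.lo 0 (by omega)))
      have i1 := TF'.init _ _ _ (tp.p 0 (by omega)) (b5.trans (tp.lo 0 (by omega)))
      have e0 : TTn μ (f i) 0 = f i := rfl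
      rw [e0] at i0 i1
      have i2 := TF.sub _ _ _ _ _ _ _ _ i1 (hsm _ _ _ _ _ s i0)
      have hz : κ' - s * κ = 0 := by rw [hκ]; ring
      rw [hz] at i2
      obtain ⟨a1, l1, t1, t2, t3, t4⟩ := b6 H0 (f i) _ J h ρ 0 L0 le_rfl tp' i2 t (by omega)
      have ts := TP_shift (s := t) (J' := J - t) hq0 hC b4 tp (by omega)
      obtain ⟨a2, l2, v1, v2, v3, v4⟩ := b6 H0 (TTn μ (f i) t) _ (J - t) _ _ a1 l1 le_rfl ts
        (by simpa using t1) (J - t) le_rfl
      rw [← TTn_add, ← dTn_add, htJ] at v1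
      rw [htJ] at v2 v3 v4
      have u3 : 0 ≤ l1 := TF.nn _ _ _ _ _ t1
      obtain ⟨t0, tB, _⟩ := hlo t (by omega)
      obtain ⟨J0, JB, J1⟩ := hlo J le_rfl
      set N2 := |a1| + l1 with hN2
      have hN20 : 0 ≤ N2 := by positivity
      have hBN2 : B * N2 / h J ≤ N2 := by
        rw [div_le_iff₀ J0]
        nlinarith
      have k1 : |a2| ≤ 2 * N2 := by
        have := abs_sub_abs_le_abs_sub a2 a1
        linarith
      have k2 : l2 ≤ 2 * N2 := by
        have g2 : (1 / 4 : ℝ) ^ (J - t) ≤ 1 := pow_le_one₀ (by norm_num) (by norm_num)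
        have g3 : (1 / 4 : ℝ) ^ (J - t) * l1 ≤ 1 * l1 := mul_le_mul_of_nonneg_right g2 u3
        have := abs_nonneg a1
        linarith
      set X := 1 / h t with hX
      have k3 : N2 ≤ L0 * (1 / 4) ^ t + 2 * B * L0 * X := by
        have e1 : B * (|(0 : ℝ)| + L0) / h t = B * L0 * X := by
          rw [hX, abs_zero]; ring
        rw [e1] at t2 t3
        rw [sub_zero] at t2
        linarith
      set Y := 1 / (1 + c * ((J - t : ℕ) : ℝ)) with hY
      have hr0 : (0 : ℝ) ≤ ((J - t : ℕ) : ℝ) := Nat.cast_nonneg _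
      have hY0 : 0 ≤ Y := by positivity
      have k4 : X ≤ 2 * Y := by
        have h5 : h J / 2 + c / 2 * ((J - t : ℕ) : ℝ) ≤ h t := by
          have := v4
          rw [add_zero] at this
          exact this
        rw [hX, hY, mul_one_div, div_le_div_iff₀ t0 (by positivity)]
        linarith
      have k5 : |a2| + l2 ≤ 4 * (8 * (B + 1) * L0) * ((1 / 4) ^ t + Y) := by
        have g1 : 2 * B * L0 * X ≤ 2 * B * L0 * (2 * Y) :=
          mul_le_mul_of_nonneg_left k4 (by positivity)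
        have g2 : 0 ≤ L0 * (1 / 4 : ℝ) ^ t := by positivity
        have g3 : 0 ≤ L0 * Y := by positivity
        have g4 : 0 ≤ B * L0 * Y := by positivity
        have g5 : 0 ≤ B * L0 * (1 / 4 : ℝ) ^ t := by positivity
        have g6 : 4 * (8 * (B + 1) * L0) * ((1 / 4) ^ t + Y) = 32 * (B * L0 * (1 / 4) ^ t) +
          32 * (B * L0 * Y) + 32 * (L0 * (1 / 4) ^ t) + 32 * (L0 * Y) := by ring
        rw [g6]
        linarith
      have hcl := TF.close _ _ _ _ _ _ (tp.p J le_rfl) v1 (b5.trans (tp.lo J le_rfl)) x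
      have hAJ := (hf i).TTn (μ := μ) J
      have hI := inv_pos.2 (hAJ.ipos (μ := μ))
      have p1 : 0 < TTn μ (f i) J 1 := hAJ.pos 1
      have px : 0 < TTn μ (f i) J x := hAJ.pos x
      have g21 := g2 x
      have g31 := g3 1
      unfold Pool.Agent.N989.MK.nrm at g21 g31
      have r1 : TTn μ (f i) J 1 / TTn μ (f i) J x ≤ M / (δ / 2) := by
        rw [div_le_div_iff₀ px (half_pos hδ)]
        have b1 := (abs_lt.1 g21).1
        have b2 := (abs_lt.1 g31).2
        have b3 := hδF x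
        have b4 := hM 1
        have b5 := le_abs_self (Fk (-↑k) 1)
        have b6 : δ / 2 ≤ (∫ y, TTn μ (f i) J y ∂μ)⁻¹ * TTn μ (f i) J x := by linarith
        have b7 : (∫ y, TTn μ (f i) J y ∂μ)⁻¹ * TTn μ (f i) J 1 ≤ M := by linarith
        have b8 : (∫ y, TTn μ (f i) J y ∂μ)⁻¹ * (TTn μ (f i) J 1 * (δ / 2)) ≤
            (∫ y, TTn μ (f i) J y ∂μ)⁻¹ * (M * TTn μ (f i) J x) := by
          have b9 := mul_le_mul_of_nonneg_right b7 (half_pos hδ).le
          have b10 := mul_le_mul_of_nonneg_left b6 hM0.le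
          nlinarith
        exact le_of_mul_le_mul_left b8 hI
      have hcf : Continuous (f i) := (hf i).cont
      have hsc : Continuous fun x => s * (o x * f i x) := continuous_const.mul (ho.mul hcf)
      have e7 : dTn μ (f i) (fun x => o' x * f i x - s * (o x * f i x)) J = fun x =>
          dTn μ (f i) (fun x => o' x * f i x) J x - s * dTn μ (f i) (fun x => o x * f i x) J x := by
        have hsc' : Continuous fun x => o' x * f i x := ho'.mul hcf
        rw [dTn_sub hcf hsc' hsc, dTn_smul]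
      rw [e7] at hcl
      set u := dTn μ (f i) (fun y => o' y * f i y) J with hu
      set v := dTn μ (f i) (fun y => o y * f i y) J with hv
      have e1 : evo μ (f i) o' J x - s * evo μ (f i) o J x =
          ((u x - s * v x) / TTn μ (f i) J 1 -
            (u 1 - s * v 1) * TTn μ (f i) J x / TTn μ (f i) J 1 ^ 2) *
            (TTn μ (f i) J 1 / TTn μ (f i) J x) := by
        unfold evo fld
        rw [← hu, ← hv]
        field_simp
        ring
      rw [e1, abs_mul, abs_of_pos (div_pos p1 px)]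
      have hhJ : 0 ≤ h J := J0.le
      have h4 : h J ^ Dm ≤ (max Hu 0) ^ Dm :=
        pow_le_pow_left₀ hhJ (hh.trans (le_max_left _ _)) _
      have hq0' : 0 ≤ (1 / 4 : ℝ) ^ t + Y := by positivity
      have h6 : C' * h J ^ Dm * (|a2| + l2) ≤
          C' * (max Hu 0) ^ Dm * (4 * (8 * (B + 1) * L0) * ((1 / 4) ^ t + Y)) :=
        mul_le_mul (mul_le_mul_of_nonneg_left h4 hC') k5
          (add_nonneg (abs_nonneg _) (TF.nn _ _ _ _ _ v1)) (by positivity)
      have h7 := mul_le_mul (hcl.trans h6) r1 (div_pos p1 px).le (by positivity)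
      refine h7.trans (le_of_eq ?_)
      rw [hK1]
      ring
    -- the conclusion at the scale `-k`
    have t1 : Tendsto (fun J : ℕ => K1 * ((1 / 4 : ℝ) ^ (J / 2) +
        1 / (1 + c * ((J - J / 2 : ℕ) : ℝ)))) atTop (𝓝 (K1 * (0 + 0))) := by
      refine Tendsto.const_mul _ (Tendsto.add ?_ ?_)
      · refine (tendsto_pow_atTop_nhds_zero_of_lt_one (by norm_num) (by norm_num)).comp ?_
        exact tendsto_atTop.2 fun b => by
          filter_upwards [eventually_ge_atTop (2 * b)] with J hJ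
          omega
      · have h2 : Tendsto (fun J : ℕ => ((J - J / 2 : ℕ) : ℝ)) atTop atTop := by
          refine tendsto_natCast_atTop_atTop.comp ?_
          exact tendsto_atTop.2 fun b => by
            filter_upwards [eventually_ge_atTop (2 * b)] with J hJ
            omega
        have h3 : Tendsto (fun J : ℕ => 1 + c * ((J - J / 2 : ℕ) : ℝ)) atTop atTop :=
          tendsto_atTop_add_const_left _ _ (h2.const_mul_atTop hc)
        exact (tendsto_inv_atTop_zero.comp h3).congr fun J => by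
          simp
    rw [add_zero, mul_zero] at t1
    have hlk : Tendsto (fun i => l i - k) atTop atTop := by
      refine tendsto_atTop.2 fun b => ?_
      filter_upwards [hl.eventually (eventually_ge_atTop (b + k))] with i hi
      omega
    have t2 := t1.comp hlk
    have hUd : UT (fun i x => evo μ (f i) o' (l i - k) x - s * evo μ (f i) o (l i - k) x)
        (fun _ => (0 : ℝ)) := by
      intro ε hε
      filter_upwards [hd, t2.eventually (gt_mem_nhds hε)] with i g1 g2 x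
      rw [sub_zero]
      exact (g1 x).trans_lt g2
    have e2 : ∀ i, ((l i : ℤ) + -(k : ℤ)).toNat = l i - k := fun i => by omega
    have hA1 : UT (fun i => evo μ (f i) o (l i - k)) (Φ (-k)) := by
      refine UT.congr (hΦ (-k)) ?_
      filter_upwards with i
      rw [e2]
    have hA2 : UT (fun i => evo μ (f i) o' (l i - k)) (Φ' (-k)) := by
      refine UT.congr (hΦ' (-k)) ?_
      filter_upwards with i
      rw [e2]
    have cΦ : Continuous (Φ (-k)) := UT.cont (fun i => cont_evo (hf i) ho _) hA1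
    have h8 := UT.add hUd (UT.mul continuous_const cΦ (UT.const fun _ => s) hA1)
    have h9 : UT (fun i => evo μ (f i) o' (l i - k)) (fun x => 0 + s * Φ (-k) x) := by
      refine UT.congr h8 ?_
      filter_upwards with i
      funext x
      ring
    have := UT.uniq hA2 h9
    rw [this]
    funext x
    ring
  -- all scales
  have hcΦ : ∀ k, Continuous (Φ k) := fun k => UT.cont (fun i => cont_evo (hf i) ho _) (hΦ k)
  have hcΦ' : ∀ k, Continuous (Φ' k) := fun k => UT.cont (fun i => cont_evo (hf i) ho' _) (hΦ' k)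
  have hstep : ∀ (o : G → ℝ) (Φ : ℤ → G → ℝ), Continuous o → (∀ k, Continuous (Φ k)) →
      (∀ k : ℤ, UT (fun i => evo μ (f i) o ((l i : ℤ) + k).toNat) (Φ k)) →
      ∀ k, Φ (k + 1) = evo μ (Fk k) (Φ k) 1 := by
    intro o Φ ho hcΦ hΦ k
    have h2 := UT.evo (μ := μ) (fun i => ((hf i).TTn ((l i : ℤ) + k).toNat).nrm (μ := μ))
      (fun i => cont_evo (μ := μ) (hf i) ho ((l i : ℤ) + k).toNat) (hF k) (hcΦ k) (hconv k)
      (hΦ k) 1
    refine UT.uniq (hΦ (k + 1)) (UT.congr h2 ?_)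
    filter_upwards [hl.eventually (eventually_ge_atTop (-k).toNat)] with i hi
    rw [evo_nrm ((hf i).TTn _), ← evo_add (hf i) ho]
    congr 1
    omega
  have hup : ∀ n : ℕ, Φ' (-(k0 : ℤ) + n) = fun x => s * Φ (-(k0 : ℤ) + n) x := by
    intro n
    induction n with
    | zero => simpa using key k0 le_rfl
    | succ n ih =>
      have e : -(k0 : ℤ) + ((n + 1 : ℕ) : ℤ) = (-(k0 : ℤ) + n) + 1 := by push_cast; ring
      rw [e, hstep o' Φ' ho' hcΦ' hΦ', hstep o Φ ho hcΦ hΦ, ih, evo_smul]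
  intro k x
  rcases le_or_gt k (-(k0 : ℤ)) with hk | hk
  · obtain ⟨m, rfl⟩ : ∃ m : ℕ, k = -m := ⟨(-k).toNat, by omega⟩
    exact congrFun (key m (by omega)) x
  · obtain ⟨m, rfl⟩ : ∃ m : ℕ, k = -(k0 : ℤ) + m := ⟨(k + k0).toNat, by omega⟩
    exact congrFun (hup m) x

end

end Pool.Agent.N681.MK
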