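import Mathlib
import Pool.Agent.N988.MK.Schw

/-!
# Even functions of two variables whose second coefficients are small

If `g s t` is holomorphic in each variable, even in each variable, `O(|s|² |t|²)`, and the
coefficients of `t²` and of `s²` are `O(|s|⁵)`, `O(|t|⁵)`, then
`g s t = O(|s|⁵|t|² + |s|⁴|t|⁴ + |s|²|t|⁵)`.
-/

open Filter Metric Asymptotics
open scoped Topology
open Pool.Agent.N988.MK

namespace Pool.Agent.N681.MK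

noncomputable section

lemma mem_half {δ : ℝ} {t : ℂ} (ht : t ∈ ball (0 : ℂ) δ) : t / 2 ∈ ball (0 : ℂ) δ := by
  rw [mem_ball_zero_iff] at ht ⊢
  rw [norm_div, Complex.norm_ofNat]
  have := norm_nonneg t
  linarith

lemma norm_half (t : ℂ) : ‖t / 2‖ = ‖t‖ / 2 := by
  rw [norm_div, Complex.norm_ofNat]

/-- the iteration of a dilation inequality -/
lemma iter_half {f P : ℂ → ℂ} {p R : ℝ} (hfP : ∀ t, f t = P t + 4 * f (t / 2))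
    (hP : ∀ t, ‖t‖ ≤ R → ‖P t‖ ≤ p * ‖t‖ ^ 4) (J : ℕ) :
    ∀ t, ‖t‖ ≤ R → ‖f t‖ ≤ 4 / 3 * p * ‖t‖ ^ 4 + 4 ^ J * ‖f (t / 2 ^ J)‖ := by
  have hp : ∀ t : ℂ, ‖t‖ ≤ R → 0 ≤ p * ‖t‖ ^ 4 := fun t ht => (norm_nonneg _).trans (hP t ht)
  induction J with
  | zero =>
    intro t ht
    have := hp t ht
    simp only [pow_zero, div_one, one_mul]
    nlinarith
  | succ J ih =>
    intro t ht
    have h1 : ‖t / 2‖ ≤ R := by rw [norm_half]; have := norm_nonneg t; linarith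
    have h2 := ih (t / 2) h1
    have h3 := hP t ht
    have h4 : ‖f t‖ ≤ ‖P t‖ + 4 * ‖f (t / 2)‖ := by
      rw [hfP t]
      refine (norm_add_le _ _).trans ?_
      rw [norm_mul, Complex.norm_ofNat]
    have e : t / 2 / 2 ^ J = t / 2 ^ (J + 1) := by
      rw [pow_succ]; field_simp
    rw [norm_half, e] at h2
    have e2 : (4 : ℝ) ^ (J + 1) * ‖f (t / 2 ^ (J + 1))‖ =
        4 * (4 ^ J * ‖f (t / 2 ^ (J + 1))‖) := by rw [pow_succ]; ring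
    rw [e2]
    have e3 : 4 / 3 * p * (‖t‖ / 2) ^ 4 = 1 / 12 * (p * ‖t‖ ^ 4) := by ring
    rw [e3] at h2
    have e4 : 4 / 3 * p * ‖t‖ ^ 4 = 4 / 3 * (p * ‖t‖ ^ 4) := by ring
    rw [e4]
    linarith

theorem two_var {g : ℂ → ℂ → ℂ} {δ K c : ℝ} (hδ : 0 < δ) (hK : 0 ≤ K) (hc : 0 ≤ c)
    (hd1 : ∀ t ∈ ball (0 : ℂ) δ, DifferentiableOn ℂ (fun s => g s t) (ball 0 δ))
    (hd2 : ∀ s ∈ ball (0 : ℂ) δ, DifferentiableOn ℂ (fun t => g s t) (ball 0 δ))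
    (he1 : ∀ s ∈ ball (0 : ℂ) δ, ∀ t ∈ ball (0 : ℂ) δ, g (-s) t = g s t)
    (he2 : ∀ s ∈ ball (0 : ℂ) δ, ∀ t ∈ ball (0 : ℂ) δ, g s (-t) = g s t)
    (hb : ∀ s ∈ ball (0 : ℂ) δ, ∀ t ∈ ball (0 : ℂ) δ, ‖g s t‖ ≤ K * ‖s‖ ^ 2 * ‖t‖ ^ 2)
    (hA : ∀ s ∈ ball (0 : ℂ) δ, ∀ (α : ℂ) (L : ℝ),
      (∀ᶠ t in 𝓝 (0 : ℂ), ‖g s t - α * t ^ 2‖ ≤ L * ‖t‖ ^ 4) → ‖α‖ ≤ c * ‖s‖ ^ 5)
    (hB : ∀ t ∈ ball (0 : ℂ) δ, ∀ (α : ℂ) (L : ℝ),
      (∀ᶠ s in 𝓝 (0 : ℂ), ‖g s t - α * s ^ 2‖ ≤ L * ‖s‖ ^ 4) → ‖α‖ ≤ c * ‖t‖ ^ 5) :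
    ∀ s ∈ ball (0 : ℂ) δ, ∀ t ∈ ball (0 : ℂ) δ, ‖g s t‖ ≤
      c * ‖s‖ ^ 5 * ‖t‖ ^ 2 + 4 / 3 * (9 / 8 * c * ‖t‖ * ‖s‖ ^ 2 + 5 * K / δ ^ 4 * ‖s‖ ^ 4) * ‖t‖ ^ 4 := by
  have h0m : (0 : ℂ) ∈ ball (0 : ℂ) δ := mem_ball_self hδ
  have hnh : ball (0 : ℂ) δ ∈ 𝓝 (0 : ℂ) := ball_mem_nhds _ hδ
  have g0t : ∀ t ∈ ball (0 : ℂ) δ, g 0 t = 0 := by
    intro t ht
    have := hb 0 h0m t ht
    rw [norm_zero] at this
    exact norm_le_zero_iff.1 (this.trans (by simp))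
  have gs0 : ∀ s ∈ ball (0 : ℂ) δ, g s 0 = 0 := by
    intro s hs
    have := hb s hs 0 h0m
    rw [norm_zero] at this
    exact norm_le_zero_iff.1 (this.trans (by simp))
  -- the coefficient of `t²`
  have qt : ∀ s ∈ ball (0 : ℂ) δ, ∃ a : ℂ, ‖a‖ ≤ c * ‖s‖ ^ 5 ∧ ∀ t ∈ ball (0 : ℂ) δ,
      ‖g s t - a * t ^ 2‖ ≤ 2 * K / δ ^ 2 * ‖s‖ ^ 2 * ‖t‖ ^ 4 := by
    intro s hs
    obtain ⟨a, -, ha⟩ := even_quad (g := fun t => g s t) (S := K * ‖s‖ ^ 2 * δ ^ 2) hδ (hd2 s hs)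
      (fun t ht => he2 s hs t ht) (gs0 s hs) (fun t ht => (hb s hs t ht).trans (by
        rw [mem_ball_zero_iff] at ht
        gcongr))
    have ha' : ∀ t ∈ ball (0 : ℂ) δ, ‖g s t - a * t ^ 2‖ ≤ 2 * K / δ ^ 2 * ‖s‖ ^ 2 * ‖t‖ ^ 4 := by
      intro t ht
      refine (ha t ht).trans (le_of_eq ?_)
      field_simp
    refine ⟨a, hA s hs a (2 * K / δ ^ 2 * ‖s‖ ^ 2) ?_, ha'⟩
    filter_upwards [hnh] with t ht
    exact ha' t ht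
  -- the coefficient of `s²`
  have qs : ∀ t ∈ ball (0 : ℂ) δ, ∃ a : ℂ, ‖a‖ ≤ c * ‖t‖ ^ 5 ∧ ∀ s ∈ ball (0 : ℂ) δ,
      ‖g s t - a * s ^ 2‖ ≤ 2 * K / δ ^ 2 * ‖t‖ ^ 2 * ‖s‖ ^ 4 := by
    intro t ht
    obtain ⟨a, -, ha⟩ := even_quad (g := fun s => g s t) (S := K * δ ^ 2 * ‖t‖ ^ 2) hδ (hd1 t ht)
      (fun s hs => he1 s hs t ht) (g0t t ht) (fun s hs => (hb s hs t ht).trans (by
        rw [mem_ball_zero_iff] at hs
        gcongr))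
    have ha' : ∀ s ∈ ball (0 : ℂ) δ, ‖g s t - a * s ^ 2‖ ≤ 2 * K / δ ^ 2 * ‖t‖ ^ 2 * ‖s‖ ^ 4 := by
      intro s hs
      refine (ha s hs).trans (le_of_eq ?_)
      field_simp
    refine ⟨a, hB t ht a (2 * K / δ ^ 2 * ‖t‖ ^ 2) ?_, ha'⟩
    filter_upwards [hnh] with s hs
    exact ha' s hs
  obtain ⟨P, hP⟩ : ∃ P : ℂ → ℂ → ℂ, P = fun s t => g s t - 4 * g s (t / 2) := ⟨_, rfl⟩
  -- first bound of `P`
  have P1 : ∀ s ∈ ball (0 : ℂ) δ, ∀ t ∈ ball (0 : ℂ) δ,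
      ‖P s t‖ ≤ 5 * K / (2 * δ ^ 2) * ‖s‖ ^ 2 * ‖t‖ ^ 4 := by
    intro s hs t ht
    obtain ⟨a, -, ha⟩ := qt s hs
    have h1 := ha t ht
    have h2 := ha (t / 2) (mem_half ht)
    have e : P s t = (g s t - a * t ^ 2) - 4 * (g s (t / 2) - a * (t / 2) ^ 2) := by
      rw [hP]; ring
    rw [e]
    refine (norm_sub_le _ _).trans ?_
    rw [norm_mul, Complex.norm_ofNat]
    rw [norm_half] at h2
    have e2 : 5 * K / (2 * δ ^ 2) * ‖s‖ ^ 2 * ‖t‖ ^ 4 =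
        2 * K / δ ^ 2 * ‖s‖ ^ 2 * ‖t‖ ^ 4 + 4 * (2 * K / δ ^ 2 * ‖s‖ ^ 2 * (‖t‖ / 2) ^ 4) := by
      field_simp
      ring
    rw [e2]
    linarith
  -- second bound of `P`
  have P2 : ∀ s ∈ ball (0 : ℂ) δ, ∀ t ∈ ball (0 : ℂ) δ,
      ‖P s t‖ ≤ (9 / 8 * c * ‖t‖ * ‖s‖ ^ 2 + 5 * K / δ ^ 4 * ‖s‖ ^ 4) * ‖t‖ ^ 4 := by
    intro s hs t ht
    have hPd : DifferentiableOn ℂ (fun s => P s t) (ball 0 δ) := by
      rw [hP]
      exact (hd1 t ht).sub ((hd1 (t / 2) (mem_half ht)).const_mul 4)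
    have hPe : ∀ s ∈ ball (0 : ℂ) δ, P (-s) t = P s t := by
      intro s hs
      rw [hP]
      beta_reduce
      rw [he1 s hs t ht, he1 s hs (t / 2) (mem_half ht)]
    have hP0 : P 0 t = 0 := by
      rw [hP]
      beta_reduce
      rw [g0t t ht, g0t _ (mem_half ht)]
      ring
    obtain ⟨β, -, hβ⟩ := even_quad (g := fun s => P s t) (S := 5 * K / 2 * ‖t‖ ^ 4) hδ hPd
      (fun s hs => hPe s hs) hP0 (fun s hs => (P1 s hs t ht).trans (by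
        rw [mem_ball_zero_iff] at hs
        have e1 : 5 * K / 2 * ‖t‖ ^ 4 = 5 * K / (2 * δ ^ 2) * δ ^ 2 * ‖t‖ ^ 4 := by field_simp
        rw [e1]
        gcongr))
    obtain ⟨b1, hb1, hb1'⟩ := qs t ht
    obtain ⟨b2, hb2, hb2'⟩ := qs (t / 2) (mem_half ht)
    -- uniqueness
    obtain ⟨M, hM⟩ : ∃ M, M = max (5 * K / δ ^ 3 * ‖t‖ ^ 4)
      ((2 * K / δ ^ 2 * ‖t‖ ^ 2 + 4 * (2 * K / δ ^ 2 * ‖t / 2‖ ^ 2)) * δ) := ⟨_, rfl⟩
    have hu : β = b1 - 4 * b2 := by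
      refine quad_unique (g := fun s => P s t) (C := M) hδ (fun s hs => ?_) (fun s hs => ?_)
      · refine (hβ s hs).trans ?_
        have h1 : 2 * (5 * K / 2 * ‖t‖ ^ 4) * (‖s‖ / δ) ^ 4 =
            5 * K / δ ^ 3 * ‖t‖ ^ 4 * ‖s‖ ^ 3 * (‖s‖ / δ) := by field_simp
        rw [h1]
        have h2 : ‖s‖ / δ ≤ 1 := by
          rw [mem_ball_zero_iff] at hs
          rw [div_le_one hδ]; exact hs.le
        have h3 : 5 * K / δ ^ 3 * ‖t‖ ^ 4 ≤ M := by rw [hM]; exact le_max_left _ _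
        calc 5 * K / δ ^ 3 * ‖t‖ ^ 4 * ‖s‖ ^ 3 * (‖s‖ / δ) ≤
            5 * K / δ ^ 3 * ‖t‖ ^ 4 * ‖s‖ ^ 3 * 1 := by gcongr
          _ ≤ M * ‖s‖ ^ 3 := by rw [mul_one]; gcongr
      · have h1 := hb1' s hs
        have h2 := hb2' s hs
        have e : P s t - (b1 - 4 * b2) * s ^ 2 =
            (g s t - b1 * s ^ 2) - 4 * (g s (t / 2) - b2 * s ^ 2) := by
          rw [hP]; ring
        show ‖P s t - (b1 - 4 * b2) * s ^ 2‖ ≤ M * ‖s‖ ^ 3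
        rw [e]
        refine (norm_sub_le _ _).trans ?_
        rw [norm_mul, Complex.norm_ofNat]
        have h3 : (2 * K / δ ^ 2 * ‖t‖ ^ 2 + 4 * (2 * K / δ ^ 2 * ‖t / 2‖ ^ 2)) * δ ≤ M := by
          rw [hM]; exact le_max_right _ _
        rw [mem_ball_zero_iff] at hs
        calc ‖g s t - b1 * s ^ 2‖ + 4 * ‖g s (t / 2) - b2 * s ^ 2‖ ≤
            (2 * K / δ ^ 2 * ‖t‖ ^ 2 + 4 * (2 * K / δ ^ 2 * ‖t / 2‖ ^ 2)) * ‖s‖ * ‖s‖ ^ 3 := by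
              nlinarith
          _ ≤ (2 * K / δ ^ 2 * ‖t‖ ^ 2 + 4 * (2 * K / δ ^ 2 * ‖t / 2‖ ^ 2)) * δ * ‖s‖ ^ 3 := by
              gcongr
          _ ≤ M * ‖s‖ ^ 3 := by gcongr
    have hβn : ‖β‖ ≤ 9 / 8 * c * ‖t‖ ^ 5 := by
      rw [hu]
      refine (norm_sub_le _ _).trans ?_
      rw [norm_mul, Complex.norm_ofNat]
      rw [norm_half] at hb2
      have : c * (‖t‖ / 2) ^ 5 = 1 / 32 * (c * ‖t‖ ^ 5) := by ring
      rw [this] at hb2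
      linarith
    have h1 := hβ s hs
    beta_reduce at h1
    have e : P s t = (P s t - β * s ^ 2) + β * s ^ 2 := by ring
    rw [e]
    refine (norm_add_le _ _).trans ?_
    rw [norm_mul, norm_pow]
    have h2 : ‖β‖ * ‖s‖ ^ 2 ≤ 9 / 8 * c * ‖t‖ ^ 5 * ‖s‖ ^ 2 := by gcongr
    have e2 : (9 / 8 * c * ‖t‖ * ‖s‖ ^ 2 + 5 * K / δ ^ 4 * ‖s‖ ^ 4) * ‖t‖ ^ 4 =
        9 / 8 * c * ‖t‖ ^ 5 * ‖s‖ ^ 2 + 2 * (5 * K / 2 * ‖t‖ ^ 4) * (‖s‖ / δ) ^ 4 := by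
      field_simp
    rw [e2]
    linarith
  intro s hs t ht
  obtain ⟨p, hp⟩ : ∃ p, p = 9 / 8 * c * ‖t‖ * ‖s‖ ^ 2 + 5 * K / δ ^ 4 * ‖s‖ ^ 4 := ⟨_, rfl⟩
  rw [← hp]
  have hit := iter_half (f := fun t => g s t) (P := fun t => P s t) (p := p) (R := ‖t‖)
    (fun t' => by rw [hP]; ring)
    (fun t' ht' => by
      have ht'm : t' ∈ ball (0 : ℂ) δ := by
        rw [mem_ball_zero_iff] at ht ⊢; exact lt_of_le_of_lt ht' ht
      refine (P2 s hs t' ht'm).trans ?_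
      rw [hp]
      gcongr)
  obtain ⟨a, ha, ha'⟩ := qt s hs
  have hJ : ∀ J : ℕ, ‖g s t‖ ≤ c * ‖s‖ ^ 5 * ‖t‖ ^ 2 + 4 / 3 * p * ‖t‖ ^ 4 +
      2 * K / δ ^ 2 * ‖s‖ ^ 2 * ‖t‖ ^ 4 * (1 / 4) ^ J := by
    intro J
    have h1 := hit J t le_rfl
    beta_reduce at h1
    have hn : ‖t / 2 ^ J‖ = ‖t‖ / 2 ^ J := by rw [norm_div, norm_pow, Complex.norm_ofNat]
    have hm : t / 2 ^ J ∈ ball (0 : ℂ) δ := by
      rw [mem_ball_zero_iff] at ht ⊢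
      rw [hn]
      exact lt_of_le_of_lt (div_le_self (norm_nonneg _) (one_le_pow₀ (by norm_num))) ht
    have h2 := ha' _ hm
    have h3 : ‖g s (t / 2 ^ J)‖ ≤ c * ‖s‖ ^ 5 * (‖t‖ / 2 ^ J) ^ 2 +
        2 * K / δ ^ 2 * ‖s‖ ^ 2 * (‖t‖ / 2 ^ J) ^ 4 := by
      have e : g s (t / 2 ^ J) = (g s (t / 2 ^ J) - a * (t / 2 ^ J) ^ 2) + a * (t / 2 ^ J) ^ 2 := by
        ring
      rw [e]
      refine (norm_add_le _ _).trans ?_
      rw [norm_mul, norm_pow, hn]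
      rw [hn] at h2
      have : ‖a‖ * (‖t‖ / 2 ^ J) ^ 2 ≤ c * ‖s‖ ^ 5 * (‖t‖ / 2 ^ J) ^ 2 := by gcongr
      linarith
    have h4 : (4 : ℝ) ^ J * ‖g s (t / 2 ^ J)‖ ≤ 4 ^ J * (c * ‖s‖ ^ 5 * (‖t‖ / 2 ^ J) ^ 2 +
        2 * K / δ ^ 2 * ‖s‖ ^ 2 * (‖t‖ / 2 ^ J) ^ 4) := by gcongr
    have e4 : (4 : ℝ) ^ J * (c * ‖s‖ ^ 5 * (‖t‖ / 2 ^ J) ^ 2 +
        2 * K / δ ^ 2 * ‖s‖ ^ 2 * (‖t‖ / 2 ^ J) ^ 4) = c * ‖s‖ ^ 5 * ‖t‖ ^ 2 +
        2 * K / δ ^ 2 * ‖s‖ ^ 2 * ‖t‖ ^ 4 * (1 / 4) ^ J := by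
      have e5 : (4 : ℝ) ^ J = (2 ^ J) ^ 2 := by rw [← pow_mul, mul_comm, pow_mul]; norm_num
      have e6 : ((1 : ℝ) / 4) ^ J = 1 / (2 ^ J) ^ 2 := by rw [div_pow, one_pow, e5]
      rw [e6, e5]
      field_simp
    rw [e4] at h4
    linarith
  have hl : Tendsto (fun J : ℕ => c * ‖s‖ ^ 5 * ‖t‖ ^ 2 + 4 / 3 * p * ‖t‖ ^ 4 +
      2 * K / δ ^ 2 * ‖s‖ ^ 2 * ‖t‖ ^ 4 * (1 / 4) ^ J) atTop
      (𝓝 (c * ‖s‖ ^ 5 * ‖t‖ ^ 2 + 4 / 3 * p * ‖t‖ ^ 4 +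
      2 * K / δ ^ 2 * ‖s‖ ^ 2 * ‖t‖ ^ 4 * 0)) :=
    ((tendsto_pow_atTop_nhds_zero_of_lt_one (by norm_num) (by norm_num)).const_mul _).const_add _
  rw [mul_zero, add_zero] at hl
  exact ge_of_tendsto hl (Eventually.of_forall hJ)

/-- an even function which vanishes to order seven vanishes to order eight -/
lemma even_eight {g : ℂ → ℂ} {ρ S : ℝ} (hρ : 0 < ρ) (hd : DifferentiableOn ℂ g (ball 0 ρ))
    (he : ∀ ζ ∈ ball (0 : ℂ) ρ, g (-ζ) = g ζ) (h5 : g =O[𝓝 0] fun t : ℂ => t ^ 7)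
    (hb : ∀ ζ ∈ ball (0 : ℂ) ρ, ‖g ζ‖ ≤ S) {ζ : ℂ} (hζ : ζ ∈ ball (0 : ℂ) ρ) :
    ‖g ζ‖ ≤ S * (‖ζ‖ / ρ) ^ 8 := by
  have hnh : ball (0 : ℂ) ρ ∈ 𝓝 (0 : ℂ) := ball_mem_nhds _ hρ
  have hg0 : g 0 = 0 := by
    obtain ⟨c, hc⟩ := h5.bound
    have := hc.self_of_nhds
    simpa using this
  have hlit : g =o[𝓝 0] fun t : ℂ => t ^ 7 := by
    have han : AnalyticAt ℂ g 0 := hd.analyticAt hnh
    by_cases hz : ∀ᶠ z in 𝓝 (0 : ℂ), g z = 0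
    · have : g =ᶠ[𝓝 0] fun _ => (0 : ℂ) := hz
      exact this.trans_isLittleO (isLittleO_zero _ _)
    obtain ⟨m, u, hu, hu0, hgu⟩ := han.exists_eventuallyEq_pow_smul_nonzero_iff.2 hz
    simp only [sub_zero, smul_eq_mul] at hgu
    have hne : (𝓝[≠] (0 : ℂ)).NeBot := inferInstance
    have hev : Even m := by
      have h1 : Tendsto (fun z : ℂ => (-1) ^ m * u (-z) - u z) (𝓝[≠] 0)
          (𝓝 ((-1) ^ m * u 0 - u 0)) := by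
        have hc : ContinuousAt (fun z : ℂ => (-1) ^ m * u (-z) - u z) 0 := by
          have h2 : ContinuousAt (fun z : ℂ => u (-z)) 0 := by
            have h3 : ContinuousAt u (-0) := by rw [neg_zero]; exact hu.continuousAt
            exact ContinuousAt.comp (g := u) (f := fun z : ℂ => -z) h3 continuous_neg.continuousAt
          exact (h2.const_mul _).sub hu.continuousAt
        have := hc.tendsto.mono_left (nhdsWithin_le_nhds (s := {0}ᶜ))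
        simpa using this
      have h2 : ∀ᶠ z in 𝓝[≠] (0 : ℂ), (-1) ^ m * u (-z) - u z = 0 := by
        have hgu' : ∀ᶠ z in 𝓝 (0 : ℂ), g (-z) = (-z) ^ m * u (-z) := by
          have : Tendsto (fun z : ℂ => -z) (𝓝 0) (𝓝 0) := by
            have := (continuous_neg (G := ℂ)).tendsto 0
            rwa [neg_zero] at this
          exact this.eventually hgu
        filter_upwards [self_mem_nhdsWithin, mem_nhdsWithin_of_mem_nhds hnh,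
          mem_nhdsWithin_of_mem_nhds hgu, mem_nhdsWithin_of_mem_nhds hgu'] with z z1 z2 z3 z4
        have z5 := he z z2
        have z3' : g z = z ^ m * u z := z3
        have z4' : g (-z) = (-z) ^ m * u (-z) := z4
        rw [z4', z3', neg_pow] at z5
        have z6 : z ^ m ≠ 0 := pow_ne_zero _ z1
        have z7 : z ^ m * ((-1) ^ m * u (-z) - u z) = 0 := by linear_combination z5
        exact (mul_eq_zero.1 z7).resolve_left z6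
      have h3 : (-1) ^ m * u 0 - u 0 = 0 :=
        tendsto_nhds_unique (h1.congr' h2) tendsto_const_nhds
      by_contra hodd
      rw [Nat.not_even_iff_odd] at hodd
      rw [hodd.neg_one_pow] at h3
      exact hu0 (by linear_combination (-1 / 2) * h3)
    have hm5 : 7 ≤ m := by
      by_contra hlt
      rw [not_le] at hlt
      have h1 : u =O[𝓝[≠] 0] fun t : ℂ => t ^ (7 - m) := by
        obtain ⟨c, hc⟩ := h5.bound
        refine IsBigO.of_bound c ?_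
        filter_upwards [self_mem_nhdsWithin, mem_nhdsWithin_of_mem_nhds hc,
          mem_nhdsWithin_of_mem_nhds hgu] with z z1 z2 z3
        have z2' : ‖g z‖ ≤ c * ‖z ^ 7‖ := z2
        have z3' : g z = z ^ m * u z := z3
        rw [z3', norm_mul] at z2'
        have e : ‖z ^ 7‖ = ‖z ^ m‖ * ‖z ^ (7 - m)‖ := by
          rw [← norm_mul, ← pow_add]; congr 2; omega
        rw [e] at z2'
        have z4 : 0 < ‖z ^ m‖ := norm_pos_iff.2 (pow_ne_zero _ z1)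
        have z5 : ‖z ^ m‖ * ‖u z‖ ≤ ‖z ^ m‖ * (c * ‖z ^ (7 - m)‖) := by linarith
        exact le_of_mul_le_mul_left z5 z4
      have h2 : Tendsto (fun t : ℂ => t ^ (7 - m)) (𝓝[≠] 0) (𝓝 0) := by
        have h3 := (continuous_pow (M := ℂ) (7 - m)).tendsto 0
        rw [zero_pow (by omega)] at h3
        exact h3.mono_left nhdsWithin_le_nhds
      have h3 := h1.trans_tendsto h2
      have h4 := hu.continuousAt.tendsto.mono_left (nhdsWithin_le_nhds (s := {0}ᶜ))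
      exact hu0 (tendsto_nhds_unique h4 h3)
    have hm6 : 8 ≤ m := by
      rcases Nat.lt_or_ge 7 m with h | h
      · exact h
      · exfalso
        have : m = 7 := le_antisymm h hm5
        rw [this] at hev
        exact absurd hev (by decide)
    have hpw : ∀ i j : ℕ, i ≤ j → (fun t : ℂ => t ^ j) =O[𝓝 0] fun t : ℂ => t ^ i := by
      intro i j h
      have e : (fun t : ℂ => t ^ j) = fun t : ℂ => t ^ (j - i) * t ^ i := by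
        funext t; rw [← pow_add]; congr 1; omega
      rw [e]
      have h1 : (fun t : ℂ => t ^ (j - i)) =O[𝓝 0] fun _ : ℂ => (1 : ℂ) :=
        (((continuous_id.pow (j - i)).tendsto (0 : ℂ)).isBigO_one ℂ)
      simpa using h1.mul (isBigO_refl (fun t : ℂ => t ^ i) (𝓝 0))
    have h6 : g =O[𝓝 0] fun t : ℂ => t ^ 8 := by
      have h1 : (fun t : ℂ => t ^ m * u t) =O[𝓝 0] fun t : ℂ => t ^ m * 1 :=
        (isBigO_refl _ _).mul (hu.continuousAt.tendsto.isBigO_one ℂ)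
      simp only [mul_one] at h1
      have h2 : g =ᶠ[𝓝 0] fun t : ℂ => t ^ m * u t := hgu
      exact (h2.trans_isBigO h1).trans (hpw 8 m hm6)
    refine h6.trans_isLittleO ?_
    have h7 : (fun t : ℂ => t * t ^ 7) =o[𝓝 0] fun t : ℂ => 1 * t ^ 7 := by
      refine IsLittleO.mul_isBigO ?_ (isBigO_refl _ _)
      rw [isLittleO_one_iff]
      exact tendsto_id
    refine (h7.congr_left fun t => by ring).congr_right fun t => by ring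
  have hm : Set.MapsTo g (ball 0 ρ) (closedBall (g 0) S) := fun z hz => by
    rw [hg0, mem_closedBall_zero_iff]; exact hb z hz
  have hn : (g · - g 0) =o[𝓝 0] (fun w : ℂ => ‖w - 0‖ ^ 7) := by
    simp only [hg0, sub_zero]
    exact hlit.norm_right.congr_right fun w => by rw [norm_pow]
  have h2 := Complex.dist_le_mul_div_pow_of_mapsTo_ball_of_isLittleO hd hm hn hζ
  rw [hg0, dist_zero_right, dist_zero_right] at h2
  exact h2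

end

end Pool.Agent.N681.MK
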