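import Mathlib
import Pool.Agent.N681.MK.Two
import Pool.Agent.N989.MK.Def6

/-!
# From the second coefficients to the bound of order eight
-/

open MeasureTheory Filter Metric Asymptotics Matrix
open scoped Matrix.Norms.Frobenius Topology ContDiff
open Pool.Agent.H906R3.YM Pool.Agent.W793.YM Pool.Agent.TH618.YM Pool.Agent.N984.TW
open Pool.Agent.N991.MK Pool.Agent.N988.MK Pool.Agent.N988.MK.B6

namespace Pool.Agent.N681.MK

set_option linter.unusedSectionVars false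

noncomputable section

variable {N n : ℕ} {G : Subgroup (UN N)} {B : Frame G n}

/-- the abstract form: an even, symmetric function of two groups of variables -/
theorem six_abs {E : (Fin n → ℂ) → (Fin n → ℂ) → ℂ} {r₀ K ρ c : ℝ} (hr : 0 < r₀) (hK : 0 ≤ K)
    (hρ : 0 < ρ) (hc : 0 ≤ c)
    (hEb : ∀ x y, nC x < r₀ → nC y < r₀ → ‖E x y‖ ≤ K * nC x ^ 2 * nC y ^ 2)
    (hEd : ∀ x y, nC x < r₀ → nC y < r₀ →
      DifferentiableAt ℂ (fun p : (Fin n → ℂ) × (Fin n → ℂ) => E p.1 p.2) (x, y))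
    (hE1 : ∀ x y, nC x < r₀ → nC y < r₀ → E (-x) y = E x y)
    (hE2 : ∀ x y, nC x < r₀ → nC y < r₀ → E x (-y) = E x y)
    (hEs : ∀ x y, nC x < r₀ → nC y < r₀ → E x y = E y x)
    (hα : ∀ x y : Fin n → ℂ, nC x < ρ → nC y < ρ → ∀ (α : ℂ) (L : ℝ),
      (∀ᶠ t in 𝓝 (0 : ℂ), ‖E x (t • y) - α * t ^ 2‖ ≤ L * ‖t‖ ^ 4) →
      ‖α‖ ≤ c * nC x ^ 5 * nC y ^ 2) :
    ∀ x y : Fin n → ℂ, nC x < r₀ / 2 → nC y < r₀ / 2 →
      ‖E x y‖ ≤ 16 * K / r₀ ^ 4 * nC x ^ 2 * nC y ^ 2 * max (nC x) (nC y) ^ 4 := by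
  have hn : ∀ y : Fin n → ℂ, nC y < r₀ → nC (-y) < r₀ := fun y hy => by rwa [nC_neg]
  have hz : ∀ x y, nC x < r₀ → nC y < r₀ → nC x * nC y = 0 → E x y = 0 := by
    intro x y hx hy hxy
    have h1 := hEb x y hx hy
    have h2 : K * nC x ^ 2 * nC y ^ 2 = K * (nC x * nC y) ^ 2 := by ring
    rw [h2, hxy] at h1
    exact norm_le_zero_iff.1 (h1.trans (by simp))
  -- order seven along every line
  have h7 : ∀ x y : Fin n → ℂ, (fun ζ : ℂ => E (ζ • x) (ζ • y)) =O[𝓝 0] fun ζ : ℂ => ζ ^ 7 := by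
    intro x y
    obtain ⟨R, hR⟩ : ∃ R, R = min ρ r₀ := ⟨_, rfl⟩
    have hR0 : 0 < R := by rw [hR]; exact lt_min hρ hr
    obtain ⟨δ, hδ⟩ : ∃ δ, δ = min 1 (R / (1 + nC x + nC y)) := ⟨_, rfl⟩
    have hx0 := nC_nonneg x
    have hy0 := nC_nonneg y
    have hδ0 : 0 < δ := by rw [hδ]; exact lt_min one_pos (by positivity)
    have hδ1 : δ ≤ 1 := by rw [hδ]; exact min_le_left _ _
    have hδR : δ * (1 + nC x + nC y) ≤ R := by
      have : δ ≤ R / (1 + nC x + nC y) := by rw [hδ]; exact min_le_right _ _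
      rwa [le_div_iff₀ (by positivity)] at this
    have hmx : ∀ s ∈ ball (0 : ℂ) δ, nC (s • x) < R := by
      intro s hs
      rw [mem_ball_zero_iff] at hs
      rw [nC_smul]
      have : ‖s‖ * nC x ≤ δ * nC x := by gcongr
      nlinarith
    have hmy : ∀ s ∈ ball (0 : ℂ) δ, nC (s • y) < R := by
      intro s hs
      rw [mem_ball_zero_iff] at hs
      rw [nC_smul]
      have : ‖s‖ * nC y ≤ δ * nC y := by gcongr
      nlinarith
    have hRr : R ≤ r₀ := by rw [hR]; exact min_le_right _ _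
    have hRρ : R ≤ ρ := by rw [hR]; exact min_le_left _ _
    obtain ⟨c', hc'⟩ : ∃ c', c' = c * (nC x + nC y) ^ 7 := ⟨_, rfl⟩
    have hc'0 : 0 ≤ c' := by rw [hc']; positivity
    have key := two_var (g := fun s t => E (s • x) (t • y)) (δ := δ)
      (K := K * nC x ^ 2 * nC y ^ 2) (c := c') hδ0 (by positivity) hc'0
      (fun t ht s hs => by
        have h3 := hEd (s • x) (t • y) ((hmx s hs).trans_le hRr) ((hmy t ht).trans_le hRr)
        have h4 : DifferentiableAt ℂ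
            (fun s : ℂ => ((s • x, t • y) : (Fin n → ℂ) × (Fin n → ℂ))) s := by fun_prop
        exact (DifferentiableAt.comp (f := fun s : ℂ => ((s • x, t • y) : (Fin n → ℂ) × (Fin n → ℂ)))
          (g := fun p : (Fin n → ℂ) × (Fin n → ℂ) => E p.1 p.2) s h3 h4).differentiableWithinAt)
      (fun s hs t ht => by
        have h3 := hEd (s • x) (t • y) ((hmx s hs).trans_le hRr) ((hmy t ht).trans_le hRr)
        have h4 : DifferentiableAt ℂ
            (fun t : ℂ => ((s • x, t • y) : (Fin n → ℂ) × (Fin n → ℂ))) t := by fun_prop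
        exact (DifferentiableAt.comp (f := fun t : ℂ => ((s • x, t • y) : (Fin n → ℂ) × (Fin n → ℂ)))
          (g := fun p : (Fin n → ℂ) × (Fin n → ℂ) => E p.1 p.2) t h3 h4).differentiableWithinAt)
      (fun s hs t ht => by
        rw [neg_smul, hE1 _ _ ((hmx s hs).trans_le hRr) ((hmy t ht).trans_le hRr)])
      (fun s hs t ht => by
        rw [neg_smul, hE2 _ _ ((hmx s hs).trans_le hRr) ((hmy t ht).trans_le hRr)])
      (fun s hs t ht => by
        refine (hEb _ _ ((hmx s hs).trans_le hRr) ((hmy t ht).trans_le hRr)).trans (le_of_eq ?_)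
        rw [nC_smul, nC_smul]
        ring)
      (fun s hs α L h => by
        -- the coefficient for `(s • x, y)`: rescale `y`
        obtain ⟨d, hd⟩ : ∃ d, d = δ / 2 := ⟨_, rfl⟩
        have hd0 : 0 < d := by rw [hd]; positivity
        have hdc : ‖(d : ℂ)‖ = d := by
          rw [Complex.norm_real, Real.norm_eq_abs, abs_of_pos hd0]
        have hdm : (d : ℂ) ∈ ball (0 : ℂ) δ := by
          rw [mem_ball_zero_iff, hdc, hd]; linarith
        have h1 := hα (s • x) ((d : ℂ) • y) ((hmx s hs).trans_le hRρ) ((hmy _ hdm).trans_le hRρ)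
          (α * (d : ℂ) ^ 2) (L * d ^ 4) (by
            have ht : Tendsto (fun t : ℂ => t * (d : ℂ)) (𝓝 0) (𝓝 0) := by
              have : Continuous fun t : ℂ => t * (d : ℂ) := by fun_prop
              have := this.tendsto 0
              rwa [zero_mul] at this
            filter_upwards [ht.eventually h] with t h2
            rw [smul_smul]
            rw [norm_mul, hdc] at h2
            have e : α * (d : ℂ) ^ 2 * t ^ 2 = α * (t * (d : ℂ)) ^ 2 := by ring
            rw [e]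
            refine h2.trans (le_of_eq ?_)
            ring)
        rw [nC_smul, nC_smul, hdc, norm_mul, norm_pow, hdc] at h1
        have h2 : ‖α‖ ≤ c * (‖s‖ * nC x) ^ 5 * nC y ^ 2 := by
          have e : c * (‖s‖ * nC x) ^ 5 * (d * nC y) ^ 2 =
              c * (‖s‖ * nC x) ^ 5 * nC y ^ 2 * d ^ 2 := by ring
          rw [e] at h1
          exact le_of_mul_le_mul_right h1 (by positivity)
        refine h2.trans ?_
        rw [hc']
        have e : c * (‖s‖ * nC x) ^ 5 * nC y ^ 2 = c * (nC x ^ 5 * nC y ^ 2) * ‖s‖ ^ 5 := by ring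
        rw [e]
        have h3 : nC x ^ 5 * nC y ^ 2 ≤ (nC x + nC y) ^ 7 := by
          calc nC x ^ 5 * nC y ^ 2 ≤ (nC x + nC y) ^ 5 * (nC x + nC y) ^ 2 := by
                gcongr <;> linarith
            _ = (nC x + nC y) ^ 7 := by ring
        gcongr)
      (fun t ht α L h => by
        obtain ⟨d, hd⟩ : ∃ d, d = δ / 2 := ⟨_, rfl⟩
        have hd0 : 0 < d := by rw [hd]; positivity
        have hdc : ‖(d : ℂ)‖ = d := by
          rw [Complex.norm_real, Real.norm_eq_abs, abs_of_pos hd0]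
        have hdm : (d : ℂ) ∈ ball (0 : ℂ) δ := by
          rw [mem_ball_zero_iff, hdc, hd]; linarith
        have h1 := hα (t • y) ((d : ℂ) • x) ((hmy t ht).trans_le hRρ) ((hmx _ hdm).trans_le hRρ)
          (α * (d : ℂ) ^ 2) (L * d ^ 4) (by
            have ht' : Tendsto (fun s : ℂ => s * (d : ℂ)) (𝓝 0) (𝓝 0) := by
              have : Continuous fun s : ℂ => s * (d : ℂ) := by fun_prop
              have := this.tendsto 0
              rwa [zero_mul] at this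
            filter_upwards [ht'.eventually h, ht'.eventually (ball_mem_nhds (0 : ℂ) hδ0)] with s h2 h3
            rw [smul_smul, ← hEs _ _ ((hmx _ h3).trans_le hRr) ((hmy t ht).trans_le hRr)]
            rw [norm_mul, hdc] at h2
            have e : α * (d : ℂ) ^ 2 * s ^ 2 = α * (s * (d : ℂ)) ^ 2 := by ring
            rw [e]
            refine h2.trans (le_of_eq ?_)
            ring)
        rw [nC_smul, nC_smul, hdc, norm_mul, norm_pow, hdc] at h1
        have h2 : ‖α‖ ≤ c * (‖t‖ * nC y) ^ 5 * nC x ^ 2 := by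
          have e : c * (‖t‖ * nC y) ^ 5 * (d * nC x) ^ 2 =
              c * (‖t‖ * nC y) ^ 5 * nC x ^ 2 * d ^ 2 := by ring
          rw [e] at h1
          exact le_of_mul_le_mul_right h1 (by positivity)
        refine h2.trans ?_
        rw [hc']
        have e : c * (‖t‖ * nC y) ^ 5 * nC x ^ 2 = c * (nC y ^ 5 * nC x ^ 2) * ‖t‖ ^ 5 := by ring
        rw [e]
        have h3 : nC y ^ 5 * nC x ^ 2 ≤ (nC x + nC y) ^ 7 := by
          calc nC y ^ 5 * nC x ^ 2 ≤ (nC x + nC y) ^ 5 * (nC x + nC y) ^ 2 := by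
                gcongr <;> linarith
            _ = (nC x + nC y) ^ 7 := by ring
        gcongr)
    refine IsBigO.of_bound (c' + 4 / 3 * (9 / 8 * c' + 5 * (K * nC x ^ 2 * nC y ^ 2) / δ ^ 4)) ?_
    filter_upwards [ball_mem_nhds (0 : ℂ) hδ0] with ζ hζ
    refine (key ζ hζ ζ hζ).trans ?_
    rw [norm_pow]
    have hζ1 : ‖ζ‖ ≤ 1 := by
      rw [mem_ball_zero_iff] at hζ; linarith
    have hζ0 := norm_nonneg ζ
    have h8 : ‖ζ‖ ^ 8 ≤ ‖ζ‖ ^ 7 := pow_le_pow_of_le_one hζ0 hζ1 (by norm_num)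
    have h9 : 5 * (K * nC x ^ 2 * nC y ^ 2) / δ ^ 4 * ‖ζ‖ ^ 8 ≤
        5 * (K * nC x ^ 2 * nC y ^ 2) / δ ^ 4 * ‖ζ‖ ^ 7 := by gcongr
    have e : c' * ‖ζ‖ ^ 5 * ‖ζ‖ ^ 2 + 4 / 3 * (9 / 8 * c' * ‖ζ‖ * ‖ζ‖ ^ 2 +
        5 * (K * nC x ^ 2 * nC y ^ 2) / δ ^ 4 * ‖ζ‖ ^ 4) * ‖ζ‖ ^ 4 =
        c' * ‖ζ‖ ^ 7 + 4 / 3 * (9 / 8 * c' * ‖ζ‖ ^ 7 +
          5 * (K * nC x ^ 2 * nC y ^ 2) / δ ^ 4 * ‖ζ‖ ^ 8) := by ring
    rw [e]
    linarith
  obtain ⟨S, hS⟩ : ∃ S, S = K * r₀ ^ 4 := ⟨_, rfl⟩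
  have hS0 : 0 ≤ S := by rw [hS]; positivity
  -- order eight
  have h8 : ∀ x y, nC x < r₀ → nC y < r₀ → ‖E x y‖ ≤ S * (max (nC x) (nC y) / r₀) ^ 8 := by
    intro x y hx hy
    obtain ⟨m, hm⟩ : ∃ m, m = max (nC x) (nC y) := ⟨_, rfl⟩
    rw [← hm]
    have hmx : nC x ≤ m := by rw [hm]; exact le_max_left _ _
    have hmy : nC y ≤ m := by rw [hm]; exact le_max_right _ _
    have hmr : m < r₀ := by rw [hm]; exact max_lt hx hy
    have hm0 : 0 ≤ m := (nC_nonneg x).trans hmx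
    rcases hm0.eq_or_lt with h0 | hmp
    · have : nC x * nC y = 0 := by
        have : nC x = 0 := le_antisymm (h0 ▸ hmx) (nC_nonneg x)
        rw [this, zero_mul]
      rw [hz x y hx hy this, norm_zero]
      positivity
    have hball : ∀ ζ ∈ ball (0 : ℂ) (r₀ / m), nC (ζ • x) < r₀ ∧ nC (ζ • y) < r₀ := by
      intro ζ hζ
      rw [mem_ball_zero_iff, lt_div_iff₀ hmp] at hζ
      rw [nC_smul, nC_smul]
      exact ⟨lt_of_le_of_lt (mul_le_mul_of_nonneg_left hmx (norm_nonneg _)) hζ,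
        lt_of_le_of_lt (mul_le_mul_of_nonneg_left hmy (norm_nonneg _)) hζ⟩
    have h1m : (1 : ℂ) ∈ ball (0 : ℂ) (r₀ / m) := by
      rw [mem_ball_zero_iff, norm_one, lt_div_iff₀ hmp, one_mul]; exact hmr
    have := even_eight (g := fun ζ : ℂ => E (ζ • x) (ζ • y)) (ρ := r₀ / m) (S := S) (by positivity)
      (fun ζ hζ => by
        have h3 := hEd (ζ • x) (ζ • y) (hball ζ hζ).1 (hball ζ hζ).2
        have h4 : DifferentiableAt ℂ
            (fun ζ : ℂ => ((ζ • x, ζ • y) : (Fin n → ℂ) × (Fin n → ℂ))) ζ := by fun_prop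
        exact (DifferentiableAt.comp
          (f := fun ζ : ℂ => ((ζ • x, ζ • y) : (Fin n → ℂ) × (Fin n → ℂ)))
          (g := fun p : (Fin n → ℂ) × (Fin n → ℂ) => E p.1 p.2) ζ h3 h4).differentiableWithinAt)
      (fun ζ hζ => by
        rw [neg_smul, neg_smul, hE1 _ _ (hball ζ hζ).1 (hn _ (hball ζ hζ).2),
          hE2 _ _ (hball ζ hζ).1 (hball ζ hζ).2])
      (h7 x y)
      (fun ζ hζ => by
        refine (hEb _ _ (hball ζ hζ).1 (hball ζ hζ).2).trans ?_
        have g1 := (hball ζ hζ).1.le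
        have g2 := (hball ζ hζ).2.le
        have g3 := nC_nonneg (ζ • x)
        have g4 := nC_nonneg (ζ • y)
        calc K * nC (ζ • x) ^ 2 * nC (ζ • y) ^ 2 ≤ K * r₀ ^ 2 * r₀ ^ 2 := by gcongr
          _ = S := by rw [hS]; ring)
      h1m
    simp only [one_smul, norm_one, one_div_div] at this
    exact this
  intro x y hx hy
  obtain ⟨m, hm⟩ : ∃ m, m = max (nC x) (nC y) := ⟨_, rfl⟩
  rw [← hm]
  have hmx : nC x ≤ m := by rw [hm]; exact le_max_left _ _
  have hmy : nC y ≤ m := by rw [hm]; exact le_max_right _ _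
  have hmr : m < r₀ / 2 := by rw [hm]; exact max_lt hx hy
  have hm0 : 0 ≤ m := (nC_nonneg x).trans hmx
  rcases hm0.eq_or_lt with h0 | hmp
  · have : nC x * nC y = 0 := by
      have : nC x = 0 := le_antisymm (h0 ▸ hmx) (nC_nonneg x)
      rw [this, zero_mul]
    rw [hz x y (by linarith) (by linarith) this, norm_zero]
    positivity
  have := even_even (T := E) (r := 2 * m) (r' := 2 * m) (S := S * (2 * m / r₀) ^ 8)
    (fun x y hx hy => hEd x y (by linarith) (by linarith))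
    (fun x y hx hy => hE1 x y (by linarith) (by linarith))
    (fun x y hx hy => hE2 x y (by linarith) (by linarith))
    (fun y hy => hz 0 y (by rw [nC_zero]; exact hr) (by linarith) (by rw [nC_zero, zero_mul]))
    (fun x hx => hz x 0 (by linarith) (by rw [nC_zero]; exact hr) (by rw [nC_zero, mul_zero]))
    (fun x y hx hy => (h8 x y (by linarith) (by linarith)).trans (by
      have g1 : max (nC x) (nC y) ≤ 2 * m := max_le hx.le hy.le
      have g2 : 0 ≤ max (nC x) (nC y) := (nC_nonneg x).trans (le_max_left _ _)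
      gcongr))
    (x := x) (y := y) (by linarith) (by linarith)
  refine this.trans (le_of_eq ?_)
  rw [hS]
  field_simp
  ring

/-! ## the form of the double bracket -/

section brC2

variable (B)

lemma brC2_smul (x y : Fin n → ℂ) (s t : ℂ) :
    brC2 B (s • x) (t • y) = s ^ 4 * t ^ 2 * brC2 B x y := by
  unfold brC2
  rw [LC_smul, LC_smul]
  obtain ⟨X, hX⟩ : ∃ X, X = LC B x := ⟨_, rfl⟩
  obtain ⟨Y, hY⟩ : ∃ Y, Y = LC B y := ⟨_, rfl⟩
  rw [← hX, ← hY]
  have e1 : (s • X) * (t • Y) - (t • Y) * (s • X) = (s * t) • (X * Y - Y * X) := by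
    rw [smul_mul_smul_comm, smul_mul_smul_comm, mul_comm t s, smul_sub]
  rw [e1]
  have e2 : (s • X) * ((s * t) • (X * Y - Y * X)) - ((s * t) • (X * Y - Y * X)) * (s • X) =
      (s ^ 2 * t) • (X * (X * Y - Y * X) - (X * Y - Y * X) * X) := by
    rw [smul_mul_smul_comm, smul_mul_smul_comm, smul_sub]
    congr 2 <;> ring
  rw [e2, smul_mul_smul_comm, trace_smul, smul_eq_mul]
  ring

lemma brC2_neg_left (x y : Fin n → ℂ) : brC2 B (-x) y = brC2 B x y := by
  have := brC2_smul B x y (-1) 1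
  rw [neg_smul, one_smul, one_smul] at this
  rw [this]; ring

lemma brC2_neg_right (x y : Fin n → ℂ) : brC2 B x (-y) = brC2 B x y := by
  have := brC2_smul B x y 1 (-1)
  rw [neg_smul, one_smul, one_smul] at this
  rw [this]; ring

lemma brC_comm (x y : Fin n → ℂ) : Pool.Agent.N988.MK.brC B x y = Pool.Agent.N988.MK.brC B y x := by
  unfold Pool.Agent.N988.MK.brC
  rw [← neg_sub (LC B y * LC B x) (LC B x * LC B y), neg_mul_neg]

lemma norm_brC2_le (x y : Fin n → ℂ) : ‖brC2 B x y‖ ≤ 32 * nC x ^ 4 * nC y ^ 2 := by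
  unfold brC2
  rw [norm_neg]
  refine (norm_trace_mul_le _ _).trans ?_
  have hx := nC_nonneg x
  have hy := nC_nonneg y
  have h1 : ‖LC B x * LC B y - LC B y * LC B x‖ ≤ 2 * (nC x * nC y) := by
    refine (norm_sub_le _ _).trans ?_
    have h2 := norm_mul_le (LC B x) (LC B y)
    have h3 := norm_mul_le (LC B y) (LC B x)
    rw [norm_LC, norm_LC] at h2 h3
    linarith
  obtain ⟨W, hW⟩ : ∃ W, W = LC B x * LC B y - LC B y * LC B x := ⟨_, rfl⟩
  rw [← hW] at h1 ⊢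
  have h4 : ‖LC B x * W - W * LC B x‖ ≤ 4 * (nC x ^ 2 * nC y) := by
    refine (norm_sub_le _ _).trans ?_
    have h2 := norm_mul_le (LC B x) W
    have h3 := norm_mul_le W (LC B x)
    rw [norm_LC] at h2 h3
    have h5 : nC x * ‖W‖ ≤ nC x * (2 * (nC x * nC y)) := by gcongr
    nlinarith
  have h0 := norm_nonneg (LC B x * W - W * LC B x)
  have h6 : ‖LC B x * W - W * LC B x‖ * ‖LC B x * W - W * LC B x‖ ≤
      (4 * (nC x ^ 2 * nC y)) * (4 * (nC x ^ 2 * nC y)) := by gcongr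
  calc 2 * (‖LC B x * W - W * LC B x‖ * ‖LC B x * W - W * LC B x‖) ≤
      2 * ((4 * (nC x ^ 2 * nC y)) * (4 * (nC x ^ 2 * nC y))) := by gcongr
    _ = 32 * nC x ^ 4 * nC y ^ 2 := by ring

lemma brC2_diff : Differentiable ℂ fun p : (Fin n → ℂ) × (Fin n → ℂ) => brC2 B p.1 p.2 := by
  have e : (fun p : (Fin n → ℂ) × (Fin n → ℂ) => brC2 B p.1 p.2) = fun p =>
      -trC N ((LCl B p.1 * (LCl B p.1 * LCl B p.2 - LCl B p.2 * LCl B p.1) -
        (LCl B p.1 * LCl B p.2 - LCl B p.2 * LCl B p.1) * LCl B p.1) *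
        (LCl B p.1 * (LCl B p.1 * LCl B p.2 - LCl B p.2 * LCl B p.1) -
        (LCl B p.1 * LCl B p.2 - LCl B p.2 * LCl B p.1) * LCl B p.1)) := rfl
  rw [e]
  have h1 : Differentiable ℂ fun p : (Fin n → ℂ) × (Fin n → ℂ) => LCl B p.1 :=
    (LCl B).differentiable.comp differentiable_fst
  have h2 : Differentiable ℂ fun p : (Fin n → ℂ) × (Fin n → ℂ) => LCl B p.2 :=
    (LCl B).differentiable.comp differentiable_snd
  have h3 := (h1.mul h2).sub (h2.mul h1)
  have h4 := (h1.mul h3).sub (h3.mul h1)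
  exact ((trC N).differentiable.comp (h4.mul h4)).neg

lemma brC2_swap_diff :
    Differentiable ℂ fun p : (Fin n → ℂ) × (Fin n → ℂ) => brC2 B p.2 p.1 := by
  have h : Differentiable ℂ fun p : (Fin n → ℂ) × (Fin n → ℂ) =>
      ((p.2, p.1) : (Fin n → ℂ) × (Fin n → ℂ)) := by fun_prop
  exact Differentiable.comp (g := fun p : (Fin n → ℂ) × (Fin n → ℂ) => brC2 B p.1 p.2)
    (f := fun p : (Fin n → ℂ) × (Fin n → ℂ) => ((p.2, p.1) : (Fin n → ℂ) × (Fin n → ℂ)))
    (brC2_diff B) h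

end brC2

/-! ## symmetry -/

variable {r₀ C : ℝ} {b : (Fin n → ℂ) → (Fin n → ℂ) → (Fin n → ℂ)}

/-- conjugation symmetry of the quadratic form of a product -/
lemma qconj (h : BC B r₀ C b) {x y : Fin n → ℂ} (hx : nC x ≤ r₀) (hy : nC y ≤ r₀) :
    qC (b x y) = qC (b y x) := by
  have e1 := h.mul x y hx hy
  have e2 := h.mul y x hy hx
  have hx' : nC (-x) ≤ r₀ := by rwa [nC_neg]
  have e3 : LC B (b x y) = EC B x * LC B (b y x) * EC B (-x) := by
    refine h.inj _ _ ?_ ?_ ?_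
    · rw [norm_LC]
      have := h.nC_le3 hx hy
      have := h.pos
      linarith
    · have h1 := h.bde (-x) hx' (LC B (b y x))
      rw [neg_neg] at h1
      refine h1.trans ?_
      rw [norm_LC]
      have := h.nC_le3 hy hx
      linarith
    · have e4 : EC B x * LC B (b y x) * EC B (-x) =
          ((uE B x : (Mat N)ˣ) : Mat N) * (LC B (b y x)) * (((uE B x)⁻¹ : (Mat N)ˣ) : Mat N) := by
        rw [uE_val, uE_inv_val]
      rw [e4, Matrix.exp_units_conj]
      show EC B (b x y) = _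
      rw [e1, uE_val, uE_inv_val]
      show _ = EC B x * EC B (b y x) * EC B (-x)
      rw [e2, mul_assoc, mul_assoc, EC_mul_neg, mul_one]
  rw [qC_eq B, qC_eq B, e3]
  congr 1
  have e6 : EC B x * LC B (b y x) * EC B (-x) * (EC B x * LC B (b y x) * EC B (-x)) =
      EC B x * (LC B (b y x) * LC B (b y x) * EC B (-x)) := by
    calc _ = EC B x * LC B (b y x) * (EC B (-x) * EC B x) * LC B (b y x) * EC B (-x) := by
          simp only [mul_assoc]
      _ = _ := by rw [EC_neg_mul, mul_one]; simp only [mul_assoc]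
  rw [e6, trace_mul_comm, mul_assoc, EC_neg_mul, mul_one]

lemma Tf_comm (h : BC B r₀ C b) {x y : Fin n → ℂ} (hx : nC x ≤ r₀) (hy : nC y ≤ r₀) :
    Tf b qC x y = Tf b qC y x := by
  unfold Tf
  have hx' : nC (-x) ≤ r₀ := by rwa [nC_neg]
  have hy' : nC (-y) ≤ r₀ := by rwa [nC_neg]
  have h1 := qconj h hx hy
  have h2 : qC (b x (-y)) = qC (b y (-x)) := by
    rw [qconj h hx hy', h.qsym hy hx]
  rw [h1, h2]
  ring

/-- **the bound of order eight from the bound of the second coefficient** -/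
theorem six_of_alpha (h : BC B r₀ C b)
    (hα : ∃ ρ c : ℝ, 0 < ρ ∧ 0 ≤ c ∧ ∀ x y : Fin n → ℂ, nC x < ρ → nC y < ρ → ∀ (α : ℂ) (K : ℝ),
      (∀ᶠ t in 𝓝 (0 : ℂ), ‖E6 B b x (t • y) - α * t ^ 2‖ ≤ K * ‖t‖ ^ 4) →
      ‖α‖ ≤ c * nC x ^ 5 * nC y ^ 2) :
    ∃ C6 : ℝ, 0 ≤ C6 ∧ ∀ x y : Fin n → ℂ, nC x < r₀ / 2 → nC y < r₀ / 2 →
      ‖E6 B b x y‖ ≤ C6 * nC x ^ 2 * nC y ^ 2 * max (nC x) (nC y) ^ 4 := by
  have hp := h.pos
  obtain ⟨ρ, c, hρ, hc, hα⟩ := hα
  obtain ⟨Cq, hCq, hq⟩ := h.Tq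
  obtain ⟨K, hK⟩ : ∃ K, K = Cq + 8 / 6 + 64 * r₀ ^ 2 := ⟨_, rfl⟩
  have hK0 : 0 ≤ K := by rw [hK]; positivity
  have hn : ∀ y : Fin n → ℂ, nC y < r₀ → nC (-y) < r₀ := fun y hy => by rwa [nC_neg]
  refine ⟨16 * K / r₀ ^ 4, by positivity, six_abs (E := E6 B b) hp hK0 hρ hc ?_ ?_ ?_ ?_ ?_ hα⟩
  · intro x y hx hy
    unfold E6
    have hx0 := nC_nonneg x
    have hy0 := nC_nonneg y
    refine (norm_add_le _ _).trans ?_
    have h0 := norm_add_le (Tf b qC x y) (1 / 6 * Pool.Agent.N988.MK.brC B x y)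
    have h1 := hq x y hx hy
    have h2 := norm_brC_le B x y
    have h3 : ‖1 / 6 * Pool.Agent.N988.MK.brC B x y‖ ≤ 8 / 6 * nC x ^ 2 * nC y ^ 2 := by
      rw [norm_mul]
      have : ‖(1 / 6 : ℂ)‖ = 1 / 6 := by norm_num
      rw [this]
      linarith
    have h4 := norm_brC2_le B x y
    have h5 := norm_brC2_le B y x
    have h6 : ‖1 / 360 * (brC2 B x y + brC2 B y x)‖ ≤ 64 * r₀ ^ 2 * nC x ^ 2 * nC y ^ 2 := by
      rw [norm_mul]
      have : ‖(1 / 360 : ℂ)‖ = 1 / 360 := by norm_num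
      rw [this]
      have h7 := norm_add_le (brC2 B x y) (brC2 B y x)
      have h8 : 32 * nC x ^ 4 * nC y ^ 2 ≤ 32 * r₀ ^ 2 * nC x ^ 2 * nC y ^ 2 := by
        calc 32 * nC x ^ 4 * nC y ^ 2 = 32 * nC x ^ 2 * nC x ^ 2 * nC y ^ 2 := by ring
          _ ≤ 32 * r₀ ^ 2 * nC x ^ 2 * nC y ^ 2 := by gcongr
      have h9 : 32 * nC y ^ 4 * nC x ^ 2 ≤ 32 * r₀ ^ 2 * nC x ^ 2 * nC y ^ 2 := by
        calc 32 * nC y ^ 4 * nC x ^ 2 = 32 * nC y ^ 2 * nC x ^ 2 * nC y ^ 2 := by ring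
          _ ≤ 32 * r₀ ^ 2 * nC x ^ 2 * nC y ^ 2 := by gcongr
      have h10 := norm_nonneg (brC2 B x y + brC2 B y x)
      linarith
    rw [hK]
    have e : (Cq + 8 / 6 + 64 * r₀ ^ 2) * nC x ^ 2 * nC y ^ 2 = Cq * nC x ^ 2 * nC y ^ 2 +
        8 / 6 * nC x ^ 2 * nC y ^ 2 + 64 * r₀ ^ 2 * nC x ^ 2 * nC y ^ 2 := by ring
    rw [e]
    linarith
  · intro x y hx hy
    unfold E6
    exact ((h.Tq_diff hx hy).add ((brC_diff B (x, y)).const_mul _)).add
      (((brC2_diff B (x, y)).add (brC2_swap_diff B (x, y))).const_mul _)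
  · intro x y hx hy
    unfold E6
    rw [brC_neg_left, brC2_neg_left, brC2_neg_right,
      Tf_neg_left qC x y (qC_neg x) (h.qsym hx.le hy.le)]
    have := h.qsym (x := x) (y := -y) hx.le (hn y hy).le
    rwa [neg_neg] at this
  · intro x y hx hy
    unfold E6
    rw [brC_neg_right, brC2_neg_right, brC2_neg_left, Tf_neg_right qC x y (qC_neg y)]
  · intro x y hx hy
    unfold E6
    rw [Tf_comm h hx.le hy.le, brC_comm B x y, add_comm (brC2 B x y)]

end

end Pool.Agent.N681.MK
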