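import Mathlib
import Pool.Agent.N681.MK.Tan4

/-!
# The renormalised operator is a symmetric class function
-/

open MeasureTheory Pool.Agent.N991.MK Pool.Agent.N989.MK Filter
open scoped Topology

namespace Pool.Agent.N681.MK

set_option linter.unusedSectionVars false

noncomputable section

variable {G : Type*} [Group G] [TopologicalSpace G] [IsTopologicalGroup G] [CompactSpace G]
  [MeasurableSpace G] [BorelSpace G] [SecondCountableTopology G]
  {μ : Measure G} [IsProbabilityMeasure μ] [μ.IsHaarMeasure] [μ.IsMulRightInvariant]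
  [μ.IsInvInvariant]

variable {f g φ o : G → ℝ}

/-- symmetric class functions -/
def CS {G : Type*} [Group G] (f : G → ℝ) : Prop := Cls f ∧ Sy f

lemma Adm.cs (h : Adm f) : CS f := ⟨h.cls, h.sy⟩

lemma CS.conv (hf : CS f) (hg : CS g) : CS (conv μ f g) :=
  ⟨conv_cls hf.1 hg.1, conv_sy hf.1 hg.1 hf.2 hg.2⟩

lemma CS.add {G : Type*} [Group G] {f g : G → ℝ} (hf : CS f) (hg : CS g) :
    CS (fun x => f x + g x) :=
  ⟨fun a x => by beta_reduce; rw [hf.1 a x, hg.1 a x], fun x => by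
    beta_reduce; rw [hf.2 x, hg.2 x]⟩

lemma CS.sub {G : Type*} [Group G] {f g : G → ℝ} (hf : CS f) (hg : CS g) :
    CS (fun x => f x - g x) :=
  ⟨fun a x => by beta_reduce; rw [hf.1 a x, hg.1 a x], fun x => by
    beta_reduce; rw [hf.2 x, hg.2 x]⟩

lemma CS.mul {G : Type*} [Group G] {f g : G → ℝ} (hf : CS f) (hg : CS g) :
    CS (fun x => f x * g x) :=
  ⟨fun a x => by beta_reduce; rw [hf.1 a x, hg.1 a x], fun x => by
    beta_reduce; rw [hf.2 x, hg.2 x]⟩

lemma CS.dcv (hf : CS f) (hg : CS g) : CS (dcv μ f g) := (hf.conv hg).add (hg.conv hf)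

lemma CS.dH4 (hf : CS f) (hg : CS g) : CS (dH4 μ f g) := (hf.conv hf).dcv (hf.dcv hg)

lemma CS.dTT (hf : CS f) (hg : CS g) : CS (dTT μ f g) := by
  have h4 : CS (H4 μ f) := (hf.conv hf).conv (hf.conv hf)
  have hd : CS (Pool.Agent.N681.MK.dH4 μ f g) := hf.dH4 hg
  refine ⟨fun a x => ?_, fun x => ?_⟩
  · unfold Pool.Agent.N681.MK.dTT
    rw [h4.1 a x, hd.1 a x]
  · unfold Pool.Agent.N681.MK.dTT
    rw [h4.2 x, hd.2 x]

lemma CS.dTn (hf : Adm f) (hg : CS g) : ∀ n, CS (dTn μ f g n)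
  | 0 => hg
  | n + 1 => (Adm.cs (hf.TTn (μ := μ) n)).dTT (CS.dTn hf hg n)

lemma CS.fld {G : Type*} [Group G] {f g : G → ℝ} (hf : CS f) (hg : CS g) : CS (fld f g) := by
  refine ⟨fun a x => ?_, fun x => ?_⟩
  · unfold Pool.Agent.N681.MK.fld
    rw [hf.1 a x, hg.1 a x]
  · unfold Pool.Agent.N681.MK.fld
    rw [hf.2 x, hg.2 x]

/-- the evolved field is a symmetric class function -/
lemma CS.evo (hf : Adm f) (hφ : CS φ) (n : ℕ) : CS (evo μ f φ n) :=
  (Adm.cs (hf.TTn (μ := μ) n)).fld (CS.dTn hf (hφ.mul (Adm.cs hf)) n)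

lemma UT.cs {G : Type*} [Group G] {a : ℕ → G → ℝ} {A : G → ℝ} (h : UT a A) (ha : ∀ i, CS (a i)) :
    CS A := by
  have t : ∀ x, Tendsto (fun i => a i x) atTop (𝓝 (A x)) := fun x => by
    rw [Metric.tendsto_atTop']
    intro ε hε
    obtain ⟨n, hn⟩ := eventually_atTop.1 (h ε hε)
    exact ⟨n, fun i hi => hn i hi.le x⟩
  refine ⟨fun g x => ?_, fun x => ?_⟩
  · refine tendsto_nhds_unique (t _) ((t x).congr fun i => ?_)
    rw [(ha i).1 g x]
  · refine tendsto_nhds_unique (t _) ((t x).congr fun i => ?_)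
    rw [(ha i).2 x]

/-- the limits are symmetric class functions -/
theorem lim_cs (ho : CS o) {f : ℕ → G → ℝ} {l : ℕ → ℕ} (hf : ∀ i, Adm (f i)) {Φ : ℤ → G → ℝ}
    (hΦ : ∀ k : ℤ, UT (fun i => evo μ (f i) o ((l i : ℤ) + k).toNat) (Φ k)) (k : ℤ) : CS (Φ k) :=
  UT.cs (hΦ k) fun i => CS.evo (hf i) ho _

end

end Pool.Agent.N681.MK
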