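import Mathlib

/-!
# The error of order eight in the second difference of the quadratic form

The definitions are those of `Pool/Agent/N989/MK/Def6.lean`.
-/
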